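import Pool.Agent.Y758.FI.Stm

/-! FI-A1 (job 10719 of helper758, by helper891). -/

set_option autoImplicit false

namespace Pool.Agent.Y758.FI

open Polynomial

section A1

variable {R : Type} [CommRing R]

/-- The derivative on the inner polynomials. -/
noncomputable abbrev A1dR (R : Type) [CommRing R] : Differential R[X] :=
  ⟨(derivative' : Derivation R R[X] R[X]).restrictScalars ℤ⟩

/-- The derivative with respect to the inner variable. -/
noncomputable def A1D (R : Type) [CommRing R] : Derivation ℤ R[X][X] R[X][X] :=
  letI := A1dR R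
  Differential.mapCoeffs

theorem A1D_coeff (f : R[X][X]) (i : ℕ) : (A1D R f).coeff i = derivative (f.coeff i) := rfl

theorem A1D_monomial (n : ℕ) (c : R[X]) :
    A1D R (monomial n c) = monomial n (derivative c) := by
  ext1 i
  rw [A1D_coeff, coeff_monomial, coeff_monomial]
  split_ifs <;> simp

theorem A1D_C (c : R[X]) : A1D R (C c) = C (derivative c) := A1D_monomial 0 c

theorem A1D_X : A1D R X = 0 := by
  have h := A1D_monomial (R := R) 1 1
  rw [derivative_one, map_zero, monomial_one_one_eq_X] at h
  exact h

theorem A1_chain (h g : R[X][X]) :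
    A1D R (h.comp g) = (A1D R h).comp g + (derivative h).comp g * A1D R g := by
  induction h using Polynomial.induction_on' with
  | add a b ha hb =>
    rw [add_comp, map_add, map_add, add_comp, ha, hb, derivative_add, add_comp]
    ring
  | monomial n c =>
    rw [monomial_comp, A1D_monomial, monomial_comp, derivative_monomial, monomial_comp,
      Derivation.leibniz, Derivation.leibniz_pow, A1D_C]
    simp only [smul_eq_mul, nsmul_eq_mul, C_mul, map_natCast]
    ring

end A1

/-- FI-A1 -/
theorem FI_A1 : S_A1 := by
  intro p _ h Z hZ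
  have hp : p.Prime := Fact.out
  set g : (ZMod p)[X][X] := X ^ p - C X * X with hg
  have e1 : (X ^ (p ^ 2) - C X * X ^ p : (ZMod p)[X][X]) = expand _ p g := by
    rw [hg, map_sub, map_mul, map_pow, expand_X, expand_C, ← pow_mul, pow_two]
  have e2 : h.comp (expand _ p g) = expand _ p (h.comp g) := by
    rw [expand_eq_comp_X_pow, expand_eq_comp_X_pow, comp_assoc]
  have e3 : Z ^ p = expand _ p (Z.map (frobenius (ZMod p)[X] p)) := by
    rw [← map_frobenius_expand, map_expand]
  have e4 : Z.map (frobenius (ZMod p)[X] p) = h.comp g := by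
    apply expand_injective (R := (ZMod p)[X]) hp.pos
    rw [← e3, hZ, e1, e2]
  have e5 : A1D (ZMod p) (Z.map (frobenius (ZMod p)[X] p)) = 0 := by
    ext1 i
    rw [A1D_coeff, coeff_map, frobenius_def, derivative_pow]
    simp
  have hgD : A1D (ZMod p) g = - X := by
    rw [hg, map_sub, Derivation.leibniz_pow, Derivation.leibniz, A1D_X, A1D_C, derivative_X]
    simp
  have hgn : g.natDegree = p := by
    rw [hg]
    have h1 : (C X * X : (ZMod p)[X][X]).natDegree < (X ^ p : (ZMod p)[X][X]).natDegree := by
      rw [natDegree_X_pow]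
      exact lt_of_le_of_lt ((natDegree_C_mul_le _ _).trans natDegree_X_le) hp.one_lt
    rw [natDegree_sub_eq_left_of_natDegree_lt h1, natDegree_X_pow]
  have hcomp : ∀ f : (ZMod p)[X][X], f.comp g = 0 → f = 0 := by
    intro f hf
    rcases comp_eq_zero_iff.1 hf with h1 | ⟨-, h1⟩
    · exact h1
    · rw [h1, natDegree_C] at hgn
      exact absurd hgn.symm hp.ne_zero
  have e6 : (A1D (ZMod p) h).comp g = X * (derivative h).comp g := by
    have h1 := A1_chain h g
    rw [← e4, e5, hgD] at h1
    have h2 : (A1D (ZMod p) h).comp g = (derivative h).comp g * X := by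
      linear_combination -h1
    rw [h2, mul_comm]
  have e7 : derivative h = 0 := by
    by_contra hne
    have h1 : (derivative h).comp g ≠ 0 := fun h0 => hne (hcomp _ h0)
    have h3 := congrArg natDegree e6
    rw [natDegree_comp, natDegree_mul X_ne_zero h1, natDegree_comp, natDegree_X, hgn] at h3
    have h4 := congrArg (· % p) h3
    simp only [Nat.mul_mod_left, Nat.add_mul_mod_self_right] at h4
    rw [Nat.mod_eq_of_lt hp.one_lt] at h4
    exact absurd h4 (by norm_num)
  have e8 : A1D (ZMod p) h = 0 := by
    apply hcomp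
    rw [e6, e7, zero_comp, mul_zero]
  have e9 : contract p h ∈ lifts (frobenius (ZMod p)[X] p) := by
    rw [lifts_iff_coeff_lifts]
    intro n
    rw [coeff_contract hp.ne_zero]
    have h1 : derivative (h.coeff (n * p)) = 0 := by
      rw [← A1D_coeff, e8, coeff_zero]
    refine ⟨contract p (h.coeff (n * p)), ?_⟩
    rw [frobenius_def, ← ZMod.expand_card]
    exact expand_contract p h1 hp.ne_zero
  obtain ⟨H, hH⟩ := (mem_lifts _).1 e9
  refine ⟨H, ?_⟩
  rw [← map_frobenius_expand, map_expand, hH]
  exact expand_contract p e7 hp.ne_zero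

end Pool.Agent.Y758.FI
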