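import Pool.Agent.Y758.FI.Stm

/-! Part A2 (helper487): the field data in every characteristic, from part A1. -/

set_option autoImplicit false

open Polynomial

namespace Pool.Agent.Y758.FI

namespace A2

/-- The polynomial `X ^ (p ^ 2) - s X ^ p`. -/
noncomputable def F (p : ℕ) : Polynomial (Polynomial (ZMod p)) :=
  X ^ (p ^ 2) - C X * X ^ p

theorem F_natDegree (p : ℕ) [hp : Fact p.Prime] : (F p).natDegree = p ^ 2 := by
  have h1 : p < p ^ 2 := by
    have := hp.out.two_le
    nlinarith
  unfold F
  rw [natDegree_sub_eq_left_of_natDegree_lt]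
  · exact natDegree_X_pow _
  · rw [natDegree_X_pow]
    refine lt_of_le_of_lt ?_ h1
    exact natDegree_C_mul_X_pow_le _ _

theorem comp_ne_zero (p : ℕ) [hp : Fact p.Prime] (h : Polynomial (Polynomial (ZMod p)))
    (hh : h ≠ 0) : h.comp (F p) ≠ 0 := by
  intro h0
  have hpos : 0 < p ^ 2 := pow_pos hp.out.pos 2
  have h1 : (F p).natDegree ≠ 0 := by
    rw [F_natDegree]; omega
  have h2 := leadingCoeff_comp (p := h) h1
  rw [h0, leadingCoeff_zero] at h2
  have h3 : F p ≠ 0 := by
    intro h4
    rw [h4] at h1
    exact h1 natDegree_zero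
  have h4 : h.leadingCoeff * (F p).leadingCoeff ^ h.natDegree ≠ 0 :=
    mul_ne_zero (leadingCoeff_ne_zero.2 hh) (pow_ne_zero _ (leadingCoeff_ne_zero.2 h3))
  exact h4 h2.symm

theorem indepA (p : ℕ) [hp : Fact p.Prime] (a : Fin (p ^ 2) → Polynomial (Polynomial (ZMod p)))
    (ha : ∑ i, (a i).comp (F p) * X ^ (i : ℕ) = 0) (i : Fin (p ^ 2)) : a i = 0 := by
  by_contra hne
  have hdeg : ∀ j : Fin (p ^ 2), a j ≠ 0 →
      ((a j).comp (F p) * X ^ (j : ℕ)).natDegree = (a j).natDegree * p ^ 2 + j := by
    intro j hj
    rw [natDegree_mul (comp_ne_zero p _ hj) (pow_ne_zero _ X_ne_zero), natDegree_comp,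
      F_natDegree, natDegree_X_pow]
  have hz : ∀ j : Fin (p ^ 2), (a j).comp (F p) * X ^ (j : ℕ) ≠ 0 → a j ≠ 0 := by
    intro j hj h0
    apply hj
    rw [h0, zero_comp, zero_mul]
  have key := degree_sum_eq_of_disjoint
    (fun j : Fin (p ^ 2) => (a j).comp (F p) * X ^ (j : ℕ)) Finset.univ (by
      intro j hj l hl hjl
      have hj' := hz j hj.2
      have hl' := hz l hl.2
      intro he
      simp only [Function.comp_apply] at he
      rw [degree_eq_natDegree hj.2, degree_eq_natDegree hl.2] at he
      have he' : ((a j).comp (F p) * X ^ (j : ℕ)).natDegree =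
        ((a l).comp (F p) * X ^ (l : ℕ)).natDegree := by
        exact_mod_cast he
      rw [hdeg j hj', hdeg l hl'] at he'
      have h5 := congrArg (fun n => n % p ^ 2) he'
      simp only [Nat.mul_add_mod_self_right] at h5
      rw [Nat.mod_eq_of_lt j.2, Nat.mod_eq_of_lt l.2] at h5
      exact hjl (Fin.ext h5))
  rw [ha, degree_zero] at key
  have h6 := Finset.le_sup (f := fun j : Fin (p ^ 2) =>
    ((a j).comp (F p) * X ^ (j : ℕ)).degree) (Finset.mem_univ i)
  rw [← key] at h6
  have h7 : (a i).comp (F p) * X ^ (i : ℕ) = 0 := by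
    rw [← degree_eq_bot]
    exact le_bot_iff.1 h6
  exact (mul_ne_zero (comp_ne_zero p _ hne) (pow_ne_zero _ X_ne_zero)) h7

section General

variable {p : ℕ} [hp : Fact p.Prime] (hA1 : S_A1) {k K : Type} [Field k] [Field K]
  [Algebra (Polynomial (Polynomial (ZMod p))) k]
  [IsFractionRing (Polynomial (Polynomial (ZMod p))) k]
  [Algebra (Polynomial (Polynomial (ZMod p))) K]
  [IsFractionRing (Polynomial (Polynomial (ZMod p))) K] [Algebra k K]
  (hφ : ∀ a : Polynomial (Polynomial (ZMod p)),
    algebraMap k K (algebraMap _ k a) = algebraMap _ K (a.comp (F p)))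

include hφ in
theorem rel_aux : (algebraMap (Polynomial (Polynomial (ZMod p))) K X) ^ (p ^ 2) =
    algebraMap k K (algebraMap (Polynomial (Polynomial (ZMod p))) k (C X)) *
      (algebraMap (Polynomial (Polynomial (ZMod p))) K X) ^ p +
      algebraMap k K (algebraMap (Polynomial (Polynomial (ZMod p))) k X) := by
  rw [hφ, hφ, C_comp, X_comp, ← map_pow, ← map_pow, ← map_mul, ← map_add]
  congr 1
  unfold F
  ring

include hφ in
theorem indep_aux : LinearIndependent k
    (fun i : Fin (p ^ 2) => (algebraMap (Polynomial (Polynomial (ZMod p))) K X) ^ (i : ℕ)) := by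
  rw [Fintype.linearIndependent_iff]
  intro g hg
  obtain ⟨b, hb⟩ := IsLocalization.exist_integer_multiples_of_finite
    (nonZeroDivisors (Polynomial (Polynomial (ZMod p)))) g
  have hb' : ∀ i, ∃ a : Polynomial (Polynomial (ZMod p)),
      algebraMap _ k a = algebraMap _ k (b : Polynomial (Polynomial (ZMod p))) * g i := by
    intro i
    obtain ⟨a, ha⟩ := hb i
    refine ⟨a, ?_⟩
    rw [ha, Algebra.smul_def]
  choose a ha using hb'
  have hb0 : algebraMap _ k (b : Polynomial (Polynomial (ZMod p))) ≠ 0 := by
    intro h0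
    have h1 := (map_eq_zero_iff _ (IsFractionRing.injective
      (Polynomial (Polynomial (ZMod p))) k)).1 h0
    exact nonZeroDivisors.ne_zero b.2 h1
  have hsum : ∑ i, (a i).comp (F p) * X ^ (i : ℕ) = 0 := by
    apply IsFractionRing.injective (Polynomial (Polynomial (ZMod p))) K
    rw [map_zero, map_sum]
    have h2 : ∑ i, algebraMap (Polynomial (Polynomial (ZMod p))) K
        ((a i).comp (F p) * X ^ (i : ℕ)) =
        algebraMap k K (algebraMap _ k (b : Polynomial (Polynomial (ZMod p)))) *
          ∑ i, g i • (algebraMap (Polynomial (Polynomial (ZMod p))) K X) ^ (i : ℕ) := by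
      rw [Finset.mul_sum]
      apply Finset.sum_congr rfl
      intro i _
      rw [map_mul, ← hφ, ha, map_mul, map_pow, Algebra.smul_def]
      ring
    rw [h2, hg, mul_zero]
  intro i
  have h3 := indepA p a hsum i
  have h4 := ha i
  rw [h3, map_zero] at h4
  exact (mul_eq_zero.1 h4.symm).resolve_left hb0

include hφ in
theorem span_aux (z : K) : ∃ c : Fin (p ^ 2) → k, z = ∑ i, algebraMap k K (c i) *
    (algebraMap (Polynomial (Polynomial (ZMod p))) K X) ^ (i : ℕ) := by
  set α : K := algebraMap (Polynomial (Polynomial (ZMod p))) K X with hα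
  have hpos : 0 < p ^ 2 := pow_pos hp.out.pos 2
  have hlt : p < p ^ 2 := by
    have := hp.out.two_le
    nlinarith
  set s : k := algebraMap (Polynomial (Polynomial (ZMod p))) k (C X) with hs
  set t : k := algebraMap (Polynomial (Polynomial (ZMod p))) k X with ht
  set q : Polynomial k := X ^ (p ^ 2) - (C s * X ^ p + C t) with hq
  have hdeg : (C s * X ^ p + C t : Polynomial k).degree < ((p ^ 2 : ℕ) : WithBot ℕ) := by
    refine lt_of_le_of_lt (degree_add_le _ _) ?_
    refine max_lt ?_ ?_
    · refine lt_of_le_of_lt (degree_C_mul_X_pow_le _ _) ?_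
      exact_mod_cast hlt
    · refine lt_of_le_of_lt degree_C_le ?_
      exact_mod_cast hpos
  have hmon : q.Monic := monic_X_pow_sub hdeg
  have hqdeg : q.natDegree = p ^ 2 := by
    rw [hq]
    rw [natDegree_sub_eq_left_of_natDegree_lt, natDegree_X_pow]
    rw [natDegree_X_pow]
    exact lt_of_le_of_lt (natDegree_add_le _ _)
      (max_lt (lt_of_le_of_lt (natDegree_C_mul_X_pow_le _ _) hlt) (by rw [natDegree_C]; exact hpos))
  have hroot : aeval α q = 0 := by
    have h1 := rel_aux (p := p) hφ
    rw [hq, map_sub, map_add, map_mul, map_pow, map_pow, aeval_X, aeval_C, aeval_C, sub_eq_zero]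
    exact h1
  have hint : IsIntegral k α := ⟨q, hmon, by rw [← aeval_def]; exact hroot⟩
  have hmem : ∀ a : Polynomial (Polynomial (ZMod p)),
      algebraMap _ K a ∈ IntermediateField.adjoin k {α} := by
    intro a
    induction a using Polynomial.induction_on' with
    | add a b ha hb =>
      rw [map_add]
      exact add_mem ha hb
    | monomial n c =>
      rw [← C_mul_X_pow_eq_monomial, map_mul, map_pow]
      apply mul_mem
      · have h1 := hφ (C c)
        rw [C_comp] at h1
        rw [← h1]
        exact (IntermediateField.adjoin k {α}).algebraMap_mem _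
      · exact pow_mem (IntermediateField.mem_adjoin_simple_self k α) n
  obtain ⟨a, b, hb, rfl⟩ := IsFractionRing.div_surjective
    (A := Polynomial (Polynomial (ZMod p))) z
  have hz : algebraMap _ K a / algebraMap _ K b ∈ IntermediateField.adjoin k {α} :=
    div_mem (hmem a) (hmem b)
  have hz2 : algebraMap _ K a / algebraMap _ K b ∈
      (IntermediateField.adjoin k {α}).toSubalgebra := hz
  rw [IntermediateField.adjoin_simple_toSubalgebra_of_isAlgebraic hint.isAlgebraic,
    Algebra.adjoin_singleton_eq_range_aeval] at hz2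
  obtain ⟨f, hf⟩ := hz2
  have hf2 : aeval α (f %ₘ q) = algebraMap _ K a / algebraMap _ K b := by
    rw [← hf]
    have h1 := congrArg (aeval α) (modByMonic_add_div f q)
    rw [map_add, map_mul, hroot, zero_mul, add_zero] at h1
    exact h1
  have hlt2 : (f %ₘ q).natDegree < p ^ 2 := by
    rw [← hqdeg]
    apply natDegree_modByMonic_lt _ hmon
    intro h1
    rw [h1, natDegree_one] at hqdeg
    omega
  refine ⟨fun i => (f %ₘ q).coeff i, ?_⟩
  rw [← hf2, aeval_eq_sum_range' hlt2, Finset.sum_range]
  apply Finset.sum_congr rfl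
  intro i _
  rw [Algebra.smul_def]

include hA1 hφ in
theorem closed_aux (z : K) (hz : ∃ c : k, z ^ p = algebraMap k K c) :
    ∃ c : k, z = algebraMap k K c := by
  obtain ⟨c, hc⟩ := hz
  obtain ⟨a, b, hb, rfl⟩ := IsFractionRing.div_surjective
    (A := Polynomial (Polynomial (ZMod p))) c
  have hb0 : b ≠ 0 := nonZeroDivisors.ne_zero hb
  have hbk : algebraMap _ k b ≠ 0 := by
    intro h0
    exact hb0 ((map_eq_zero_iff _ (IsFractionRing.injective
      (Polynomial (Polynomial (ZMod p))) k)).1 h0)
  have hbK : algebraMap k K (algebraMap _ k b) ≠ 0 := by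
    intro h0
    exact hbk ((map_eq_zero_iff _ (algebraMap k K).injective).1 h0)
  have hp0 : p ≠ 0 := hp.out.ne_zero
  have hpow : b ^ p = b ^ (p - 1) * b := by
    rw [← pow_succ]
    congr 1
    omega
  have h1 : (z * algebraMap k K (algebraMap _ k b)) ^ p =
      algebraMap _ K ((a * b ^ (p - 1)).comp (F p)) := by
    have h5 : (algebraMap (Polynomial (Polynomial (ZMod p))) k a / algebraMap _ k b) *
        (algebraMap (Polynomial (Polynomial (ZMod p))) k b) ^ p =
        algebraMap _ k (a * b ^ (p - 1)) := by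
      rw [← map_pow, hpow, map_mul, map_mul]
      field_simp
    rw [mul_pow, hc, ← hφ, ← map_pow, ← map_mul, h5]
  have h2 : IsIntegral (Polynomial (Polynomial (ZMod p)))
      ((z * algebraMap k K (algebraMap _ k b)) ^ p) := by
    rw [h1]
    exact isIntegral_algebraMap
  obtain ⟨Z, hZ⟩ := IsIntegrallyClosed.exists_algebraMap_eq_of_isIntegral_pow
    (R := Polynomial (Polynomial (ZMod p))) (Nat.pos_of_ne_zero hp0) h2
  have h3 : Z ^ p = (a * b ^ (p - 1)).comp (F p) := by
    apply IsFractionRing.injective (Polynomial (Polynomial (ZMod p))) K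
    rw [map_pow, hZ, h1]
  obtain ⟨H, hH⟩ := hA1 p (a * b ^ (p - 1)) Z h3
  have h4 : Z = H.comp (F p) := by
    apply frobenius_inj (Polynomial (Polynomial (ZMod p))) p
    rw [frobenius_def, frobenius_def, h3, ← hH, pow_comp]
  refine ⟨algebraMap _ k H / algebraMap _ k b, ?_⟩
  rw [map_div₀, eq_div_iff hbK, ← hZ, h4, hφ]

include hA1 hφ in
theorem fieldData : FieldData p k K (algebraMap (Polynomial (Polynomial (ZMod p))) K X)
    (algebraMap (Polynomial (Polynomial (ZMod p))) k (C X))
    (algebraMap (Polynomial (Polynomial (ZMod p))) k X) where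
  char := charP_of_injective_algebraMap
    (IsFractionRing.injective (Polynomial (Polynomial (ZMod p))) k) p
  rel := rel_aux hφ
  indep := indep_aux hφ
  span := span_aux hφ
  closed := closed_aux hA1 hφ

end General

theorem comp_injective (p : ℕ) [hp : Fact p.Prime] :
    Function.Injective (compRingHom (F p)) := by
  rw [injective_iff_map_eq_zero]
  intro a ha
  by_contra h
  rw [coe_compRingHom_apply] at ha
  exact comp_ne_zero p a h ha

theorem total_injective (p : ℕ) [hp : Fact p.Prime] :
    Function.Injective ((algebraMap (Polynomial (Polynomial (ZMod p)))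
      (FractionRing (Polynomial (Polynomial (ZMod p))))).comp (compRingHom (F p))) := by
  intro a b hab
  rw [RingHom.comp_apply, RingHom.comp_apply] at hab
  exact comp_injective p (IsFractionRing.injective (Polynomial (Polynomial (ZMod p)))
    (FractionRing (Polynomial (Polynomial (ZMod p)))) hab)

/-- The embedding of the small field. -/
noncomputable def emb (p : ℕ) [hp : Fact p.Prime] :
    FractionRing (Polynomial (Polynomial (ZMod p))) →+*
      FractionRing (Polynomial (Polynomial (ZMod p))) :=
  IsFractionRing.lift (total_injective p)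

theorem emb_apply (p : ℕ) [hp : Fact p.Prime] (a : Polynomial (Polynomial (ZMod p))) :
    emb p (algebraMap _ _ a) = algebraMap _ _ (a.comp (F p)) := by
  unfold emb
  rw [IsFractionRing.lift_algebraMap, RingHom.comp_apply, coe_compRingHom_apply]

theorem exists_fieldData (hA1 : S_A1) (p : ℕ) [hp : Fact p.Prime] :
    ∃ (k K : Type) (_ : Field k) (_ : Field K) (_ : Algebra k K) (α : K)
      (s t : k), FieldData p k K α s t ∧ t ≠ 0 := by
  refine ⟨FractionRing (Polynomial (Polynomial (ZMod p))),
    FractionRing (Polynomial (Polynomial (ZMod p))), inferInstance, inferInstance,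
    (emb p).toAlgebra, algebraMap (Polynomial (Polynomial (ZMod p))) _ X,
    algebraMap (Polynomial (Polynomial (ZMod p))) _ (C X),
    algebraMap (Polynomial (Polynomial (ZMod p))) _ X, ?_, ?_⟩
  · exact @fieldData p hp hA1 _ _ _ _ _ _ _ _ (emb p).toAlgebra (fun a => emb_apply p a)
  · intro h0
    exact X_ne_zero ((map_eq_zero_iff _ (IsFractionRing.injective
      (Polynomial (Polynomial (ZMod p))) (FractionRing (Polynomial (Polynomial (ZMod p)))))).1 h0)

end A2

theorem FI_A2 : S_A2 := by
  intro hA1 p hp
  have : Fact p.Prime := ⟨hp⟩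
  exact A2.exists_fieldData hA1 p

end Pool.Agent.Y758.FI
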