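import Pool.Agent.Y758.FI.Stm
import Pool.Agent.H503R3.FI.TaskB_helper133

/-!
# FI-B: the map onto a one-dimensional local domain
(helper259, for project FI of helper758; adaptation of `Pool/Agent/H503R3/FI/TaskB_helper133.lean`)
-/

set_option autoImplicit false

namespace Pool.Agent.Y758.FI

namespace BJ

open Polynomial
open H133FI (InV InV_div InV_mul InV_pow InV_one coe_ne_zero)

/-- the values of the variables -/
noncomputable def ro {K : Type} [Field K] (α : K) (r : ℕ) : Fin (r + 2) → K[X] :=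
  Fin.cons X (Fin.cons (C α * X) fun _ => 0)

/-- the map of the polynomial ring -/
noncomputable def rho (k : Type) {K : Type} [Field k] [Field K] [Algebra k K] (r : ℕ) (α : K) :
    P r k →ₐ[k] K[X] := MvPolynomial.aeval (ro α r)

section

variable {k K : Type} [Field k] [Field K] [Algebra k K] {p r : ℕ} {α : K}

theorem rho_X0 : rho k r α (MvPolynomial.X 0) = X := by
  rw [rho, MvPolynomial.aeval_X]
  rfl

theorem rho_X1 : rho k r α (MvPolynomial.X 1) = C α * X := by
  rw [rho, MvPolynomial.aeval_X]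
  rfl

theorem rho_Xs (i : Fin r) : rho k r α (MvPolynomial.X i.succ.succ) = 0 := by
  rw [rho, MvPolynomial.aeval_X]
  rfl

theorem rho_C (c : k) : rho k r α (MvPolynomial.C c) = C (algebraMap k K c) := by
  rw [rho, MvPolynomial.aeval_C]
  rfl

theorem rho_mono (m : Fin (r + 2) →₀ ℕ) (h : (p ^ 2 - 1) ∣ m 0 + m 1) :
    ∃ g : K[X], expand K (p ^ 2 - 1) g = rho k r α (MvPolynomial.monomial m 1) := by
  obtain ⟨c, hc⟩ := h
  refine ⟨C (α ^ m 1) * X ^ c * ∏ i : Fin r, (0 : K[X]) ^ m i.succ.succ, ?_⟩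
  rw [rho, MvPolynomial.aeval_monomial, RingHom.map_one (algebraMap k K[X]), one_mul,
    Finsupp.prod_fintype _ _ (fun i => pow_zero _), Fin.prod_univ_succ, Fin.prod_univ_succ]
  have e0 : ro α r 0 = X := rfl
  have e1 : ro α r (Fin.succ 0) = C α * X := rfl
  have e2 : ∀ i : Fin r, ro α r i.succ.succ = 0 := fun i => rfl
  have e3 : m (Fin.succ 0) = m 1 := rfl
  simp only [e0, e1, e2, e3, map_mul, map_pow, expand_C, expand_X, map_prod, map_zero]
  rw [← pow_mul, ← hc, mul_pow, pow_add]
  ring

theorem rho_mem (α : K) (f : S p r k) :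
    ∃ g : K[X], expand K (p ^ 2 - 1) g = rho k r α f.1 := by
  have h : S p r k ≤ (((expand K (p ^ 2 - 1)).restrictScalars k).range).comap (rho k r α) := by
    refine Algebra.adjoin_le ?_
    rintro _ ⟨m, hm, rfl⟩
    exact rho_mono m hm
  exact h f.2

/-- the map to polynomials -/
noncomputable def sig (k : Type) {K : Type} [Field k] [Field K] [Algebra k K] (p r : ℕ) (α : K)
    (he : 0 < p ^ 2 - 1) : S p r k →+* K[X] where
  toFun f := Classical.choose (rho_mem α f)
  map_one' := by
    apply expand_injective he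
    rw [Classical.choose_spec (rho_mem α (1 : S p r k)), map_one]
    exact map_one _
  map_mul' f g := by
    apply expand_injective he
    rw [Classical.choose_spec (rho_mem α (f * g)), map_mul, Classical.choose_spec (rho_mem α f),
      Classical.choose_spec (rho_mem α g)]
    exact map_mul _ _ _
  map_zero' := by
    apply expand_injective he
    rw [Classical.choose_spec (rho_mem α (0 : S p r k)), map_zero]
    exact map_zero _
  map_add' f g := by
    apply expand_injective he
    rw [Classical.choose_spec (rho_mem α (f + g)), map_add, Classical.choose_spec (rho_mem α f),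
      Classical.choose_spec (rho_mem α g)]
    exact map_add _ _ _

variable (he : 0 < p ^ 2 - 1)

theorem sig_spec (f : S p r k) : expand K (p ^ 2 - 1) (sig k p r α he f) = rho k r α f.1 :=
  Classical.choose_spec (rho_mem α f)

theorem sig_eq {f : S p r k} {g : K[X]} (h : expand K (p ^ 2 - 1) g = rho k r α f.1) :
    sig k p r α he f = g := by
  apply expand_injective he
  rw [sig_spec, h]

theorem sig_uv (c : k) (a b n : ℕ) (h : b + a = (p ^ 2 - 1) * n)
    (hm : (MvPolynomial.C c * (MvPolynomial.X 1 ^ a * MvPolynomial.X 0 ^ b) : P r k) ∈ S p r k) :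
    sig k p r α he ⟨MvPolynomial.C c * (MvPolynomial.X 1 ^ a * MvPolynomial.X 0 ^ b), hm⟩ =
      C (algebraMap k K c * α ^ a) * X ^ n := by
  apply sig_eq
  have h1 : rho k r α (MvPolynomial.C c * (MvPolynomial.X 1 ^ a * MvPolynomial.X 0 ^ b)) =
      C (algebraMap k K c) * ((C α * X) ^ a * X ^ b) := by
    rw [map_mul, map_mul, map_pow, map_pow, rho_C, rho_X0, rho_X1]
  show _ = rho k r α (MvPolynomial.C c * (MvPolynomial.X 1 ^ a * MvPolynomial.X 0 ^ b))
  rw [h1, map_mul, expand_C, map_pow, expand_X, ← pow_mul, ← h, pow_add, mul_pow, C_mul, C_pow]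
  ring

theorem sig_C (c : k) : sig k p r α he (algebraMap k (S p r k) c) = C (algebraMap k K c) := by
  apply sig_eq
  rw [expand_C]
  show _ = rho k r α (MvPolynomial.C c)
  rw [rho_C]

theorem sig_z (i : Fin r) : sig k p r α he ⟨MvPolynomial.X i.succ.succ, z_mem p r k i⟩ = 0 := by
  apply sig_eq
  rw [map_zero]
  exact (rho_Xs i).symm

theorem rho_coeff0 (f : P r k) :
    (rho k r α f).coeff 0 = algebraMap k K (MvPolynomial.constantCoeff f) := by
  have h : (Polynomial.constantCoeff (R := K)).comp (rho k r α).toRingHom =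
      (algebraMap k K).comp MvPolynomial.constantCoeff := by
    apply MvPolynomial.ringHom_ext
    · intro c
      show (rho k r α (MvPolynomial.C c)).coeff 0 = _
      rw [rho_C]
      simp
    · intro i
      show (rho k r α (MvPolynomial.X i)).coeff 0 = _
      rw [rho, MvPolynomial.aeval_X]
      refine Fin.cases ?_ (fun j => Fin.cases ?_ (fun l => ?_) j) i
      · show (X : K[X]).coeff 0 = _
        simp
      · show (C α * X : K[X]).coeff 0 = _
        simp
      · show (0 : K[X]).coeff 0 = _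
        simp
  exact congrArg (fun g => g f) h

theorem sig_coeff0 (f : S p r k) :
    (sig k p r α he f).coeff 0 = algebraMap k K (MvPolynomial.constantCoeff f.1) := by
  rw [← rho_coeff0 (α := α), ← sig_spec he f, coeff_expand he, if_pos (dvd_zero _), Nat.zero_div]

/-- the map to power series -/
noncomputable def sig' (k : Type) {K : Type} [Field k] [Field K] [Algebra k K] (p r : ℕ) (α : K)
    (he : 0 < p ^ 2 - 1) : S p r k →+* PowerSeries K :=
  (Polynomial.coeToPowerSeries.ringHom).comp (sig k p r α he)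

theorem sig'_apply (f : S p r k) :
    sig' k p r α he f = ((sig k p r α he f : K[X]) : PowerSeries K) := rfl

theorem mem_compl {f : S p r k} (h : f ∈ (orig p r k).primeCompl) :
    MvPolynomial.constantCoeff f.1 ≠ 0 := by
  have h1 : f ∉ orig p r k := h
  rw [RingHom.mem_ker] at h1
  exact h1

theorem sig'_isUnit (f : (orig p r k).primeCompl) : IsUnit (sig' k p r α he f.1) := by
  rw [PowerSeries.isUnit_iff_constantCoeff, isUnit_iff_ne_zero, sig'_apply,
    ← PowerSeries.coeff_zero_eq_constantCoeff_apply, Polynomial.coeff_coe, sig_coeff0, Ne,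
    map_eq_zero]
  exact mem_compl f.2

/-- the map `π` into power series -/
noncomputable def pl (k : Type) {K : Type} [Field k] [Field K] [Algebra k K] (p r : ℕ) (α : K)
    (he : 0 < p ^ 2 - 1) : T p r k →+* PowerSeries K :=
  IsLocalization.lift (M := (orig p r k).primeCompl) (g := sig' k p r α he) (sig'_isUnit he)

theorem pl_alg (f : S p r k) : pl k p r α he (algebraMap _ (T p r k) f) = sig' k p r α he f :=
  IsLocalization.lift_eq _ _

theorem pl_cst (c : k) : pl k p r α he (cst p r k c) = PowerSeries.C (algebraMap k K c) := by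
  rw [cst, pl_alg, sig'_apply, sig_C, Polynomial.coe_C]

/-- the image -/
noncomputable def RB (k : Type) {K : Type} [Field k] [Field K] [Algebra k K] (p r : ℕ) (α : K)
    (he : 0 < p ^ 2 - 1) : Subring (PowerSeries K) where
  carrier := Set.range (pl k p r α he)
  mul_mem' := by
    rintro _ _ ⟨a, rfl⟩ ⟨b, rfl⟩
    exact ⟨a * b, map_mul _ _ _⟩
  one_mem' := ⟨1, map_one _⟩
  add_mem' := by
    rintro _ _ ⟨a, rfl⟩ ⟨b, rfl⟩
    exact ⟨a + b, map_add _ _ _⟩
  zero_mem' := ⟨0, map_zero _⟩
  neg_mem' := by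
    rintro _ ⟨a, rfl⟩
    refine ⟨cst p r k (-1) * a, ?_⟩
    rw [map_mul, pl_cst, RingHom.map_neg, RingHom.map_one, RingHom.map_neg, RingHom.map_one,
      neg_one_mul]

end

section data

variable {k K : Type} [Field k] [Field K] [Algebra k K] {p r : ℕ} {α : K} {s t : k}
  (he : 0 < p ^ 2 - 1)

theorem X_mul_mem (hd : FieldData p k K α s t) (g : K[X]) : X * g ∈ (sig k p r α he).range := by
  induction g using Polynomial.induction_on' with
  | add p q hp hq =>
    rw [mul_add]
    exact add_mem hp hq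
  | monomial n z =>
    obtain ⟨c, hz⟩ := hd.span z
    have hlt : ∀ i : Fin (p ^ 2), p ^ 2 - 1 - (i : ℕ) + (p ^ 2 - 1) * n + i =
        (p ^ 2 - 1) * (n + 1) := by
      intro i
      have h1 := i.2
      rw [mul_add, mul_one]
      omega
    refine ⟨∑ i : Fin (p ^ 2), ⟨MvPolynomial.C (c i) * (MvPolynomial.X 1 ^ (i : ℕ) *
      MvPolynomial.X 0 ^ (p ^ 2 - 1 - (i : ℕ) + (p ^ 2 - 1) * n)),
      pow_mul_mem p r k _ _ _ ⟨n + 1, hlt i⟩⟩, ?_⟩
    rw [map_sum, Finset.sum_congr rfl fun i _ => sig_uv he (c i) _ _ (n + 1) (hlt i) _,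
      ← Finset.sum_mul, ← map_sum, ← hz, ← Polynomial.C_mul_X_pow_eq_monomial, pow_succ]
    ring

theorem mem_sig (hd : FieldData p k K α s t) (g : K[X]) (c : k)
    (hg : g.coeff 0 = algebraMap k K c) :
    ∃ f : S p r k, sig k p r α he f = g ∧ MvPolynomial.constantCoeff f.1 = c := by
  obtain ⟨f, hf⟩ := X_mul_mem (r := r) he hd g.divX
  refine ⟨f + algebraMap k (S p r k) c, ?_, ?_⟩
  · rw [map_add, hf, sig_C, ← hg]
    conv_rhs => rw [← Polynomial.X_mul_divX_add g]
  · have h1 := sig_coeff0 (α := α) he f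
    rw [hf] at h1
    simp at h1
    rw [eq_comm, map_eq_zero] at h1
    show MvPolynomial.constantCoeff (f.1 + MvPolynomial.C c) = c
    rw [map_add, h1]
    simp

theorem pl_mem_iff (hd : FieldData p k K α s t) (f : PowerSeries K) :
    f ∈ RB k p r α he ↔
      InV f ∧ ∃ c : k, PowerSeries.constantCoeff f = algebraMap k K c := by
  constructor
  · rintro ⟨z, rfl⟩
    obtain ⟨a, b, rfl⟩ := IsLocalization.exists_mk'_eq (orig p r k).primeCompl z
    have h1 : ((sig k p r α he b.1 : K[X]) : PowerSeries K) *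
        pl k p r α he (IsLocalization.mk' (T p r k) a b) =
          ((sig k p r α he a : K[X]) : PowerSeries K) := by
      rw [← sig'_apply, ← sig'_apply, ← pl_alg, ← pl_alg, ← map_mul, mul_comm,
        IsLocalization.mk'_spec]
    have hb : MvPolynomial.constantCoeff b.1.1 ≠ 0 := mem_compl b.2
    refine ⟨⟨_, _, ?_, h1⟩, MvPolynomial.constantCoeff a.1 / MvPolynomial.constantCoeff b.1.1, ?_⟩
    · rw [sig_coeff0, Ne, map_eq_zero]
      exact hb
    · have h2 := congrArg PowerSeries.constantCoeff h1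
      rw [map_mul, ← PowerSeries.coeff_zero_eq_constantCoeff_apply,
        ← PowerSeries.coeff_zero_eq_constantCoeff_apply,
        ← PowerSeries.coeff_zero_eq_constantCoeff_apply, Polynomial.coeff_coe,
        Polynomial.coeff_coe, sig_coeff0, sig_coeff0] at h2
      rw [← PowerSeries.coeff_zero_eq_constantCoeff_apply, map_div₀, eq_div_iff, mul_comm, h2]
      rw [Ne, map_eq_zero]
      exact hb
  · rintro ⟨⟨G, H, hH, e⟩, c, hc⟩
    have h0 : H.coeff 0 * algebraMap k K c = G.coeff 0 := by
      have h0 := congrArg PowerSeries.constantCoeff e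
      rw [map_mul, hc] at h0
      rw [← Polynomial.coeff_coe H, ← Polynomial.coeff_coe G,
        PowerSeries.coeff_zero_eq_constantCoeff_apply,
        PowerSeries.coeff_zero_eq_constantCoeff_apply]
      exact h0
    obtain ⟨b, hb1, hb2⟩ := mem_sig (r := r) he hd (C (H.coeff 0)⁻¹ * H) 1 (by
      simp [hH])
    obtain ⟨a, ha1, ha2⟩ := mem_sig (r := r) he hd (C (H.coeff 0)⁻¹ * G) c (by
      rw [Polynomial.mul_coeff_zero, ← h0]
      simp
      field_simp)
    have hb : b ∈ (orig p r k).primeCompl := by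
      intro h
      rw [SetLike.mem_coe, RingHom.mem_ker] at h
      have h' : MvPolynomial.constantCoeff b.1 = 0 := h
      rw [hb2] at h'
      exact one_ne_zero h'
    refine ⟨IsLocalization.mk' (T p r k) a ⟨b, hb⟩, ?_⟩
    have h1 : ((sig k p r α he b : K[X]) : PowerSeries K) *
        pl k p r α he (IsLocalization.mk' (T p r k) a ⟨b, hb⟩) =
        ((sig k p r α he a : K[X]) : PowerSeries K) := by
      have h3 := IsLocalization.mk'_spec' (T p r k) a (⟨b, hb⟩ : (orig p r k).primeCompl)
      rw [← sig'_apply, ← sig'_apply, ← pl_alg, ← pl_alg, ← map_mul, ← h3]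
    have h2 : ((sig k p r α he b : K[X]) : PowerSeries K) * f =
        ((sig k p r α he a : K[X]) : PowerSeries K) := by
      rw [hb1, ha1, Polynomial.coe_mul, Polynomial.coe_mul, ← e]
      ring
    refine mul_left_cancel₀ ?_ (h1.trans h2.symm)
    apply coe_ne_zero
    rw [sig_coeff0, hb2]
    simp

theorem pl_uv (c : k) (a b n : ℕ) (h : b + a = (p ^ 2 - 1) * n) :
    pl k p r α he (uv p r k c a b) =
      PowerSeries.C (algebraMap k K c * α ^ a) * PowerSeries.X ^ n := by
  have hdvd : (p ^ 2 - 1) ∣ b + a := ⟨n, h⟩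
  rw [uv, dif_pos hdvd, pl_alg, sig'_apply, sig_uv he c a b n h, Polynomial.coe_mul,
    Polynomial.coe_C, Polynomial.coe_pow, Polynomial.coe_X]

theorem pl_zz (i : Fin r) : pl k p r α he (zz p r k i) = 0 := by
  rw [zz, pl_alg, sig'_apply, sig_z, Polynomial.coe_zero]

variable (hd : FieldData p k K α s t) (hp : 2 ≤ p)
include hd hp

theorem pl_x0 : pl k p r α he (x0 p r k) = PowerSeries.C (α ^ (p ^ 2 - 1)) * PowerSeries.X := by
  rw [x0, pl_uv he _ _ _ 1 (by omega), map_one, one_mul, pow_one]

theorem pl_x1 : pl k p r α he (x1 p r k s t) =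
    PowerSeries.C (α ^ (p ^ 2 - 1) * α) * PowerSeries.X := by
  have h1 : p ≤ p ^ 2 - 1 := by
    have : 2 * p ≤ p ^ 2 := by nlinarith
    omega
  have h2 : α ^ (p ^ 2 - 1) * α = α ^ (p ^ 2) := by
    rw [← pow_succ]
    congr 1
    omega
  rw [x1, map_add, pl_uv he _ _ _ 1 (by omega), pl_uv he _ _ _ 1 (by omega), pow_one, h2, hd.rel,
    pow_zero, mul_one, map_add]
  ring

theorem pl_x2 : pl k p r α he (x2 p r k s t) =
    PowerSeries.C (α ^ (p ^ 2 - 1) * α ^ p) * PowerSeries.X := by
  have h1 : 2 * p ≤ p ^ 2 := by nlinarith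
  have h2 : α ^ (p ^ 2 - 1) * α ^ p = α ^ (p - 1) * α ^ (p ^ 2) := by
    rw [← pow_add, ← pow_add]
    congr 1
    omega
  have h3 : α ^ (2 * p - 1) = α ^ (p - 1) * α ^ p := by
    rw [← pow_add]
    congr 1
    omega
  rw [x2, map_add, pl_uv he _ _ _ 1 (by omega), pl_uv he _ _ _ 1 (by omega), pow_one, h2, hd.rel,
    h3, ← add_mul, ← map_add]
  congr 2
  ring

end data

end BJ

open BJ

theorem FI_B : S_B := by
  intro p r k K _ _ _ α s t hprime hd
  have hp : 2 ≤ p := hprime.two_le
  have h2p : 2 * p ≤ p ^ 2 := by nlinarith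
  have he : 0 < p ^ 2 - 1 := by omega
  have hp0 : p ≠ 0 := by omega
  have hα : α ≠ 0 := by
    have h1 := hd.indep.ne_zero ⟨1, by omega⟩
    simpa using h1
  have hin : ∀ f : RB k p r α he, H133FI.InV f.1 ∧
      ∃ c : k, PowerSeries.constantCoeff f.1 = algebraMap k K c :=
    fun f => (pl_mem_iff he hd f.1).1 f.2
  refine ⟨RB k p r α he, inferInstance,
    (pl k p r α he).codRestrict (RB k p r α he) (fun z => ⟨z, rfl⟩), ?_⟩
  refine ⟨inferInstance, ?_, ?_, ?_, ?_, ?_, ?_, ?_⟩
  · rintro ⟨_, z, rfl⟩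
    exact ⟨z, rfl⟩
  · -- dim1
    intro a ha f hf
    have ha' : a.1 ≠ 0 := fun h => ha (Subtype.ext h)
    obtain ⟨hfV, c, hc⟩ := hin f
    have hf0 : PowerSeries.constantCoeff f.1 = 0 := by
      by_contra h
      apply hf
      have h1 : f.1 * (f.1)⁻¹ = 1 := PowerSeries.mul_inv_cancel _ h
      have hf1 : f.1 ≠ 0 := by
        intro h2
        rw [h2] at h
        simp at h
      have h2 : (f.1)⁻¹ ∈ RB k p r α he := by
        rw [pl_mem_iff he hd]
        refine ⟨H133FI.InV_div H133FI.InV_one hfV hf1 h1.symm, c⁻¹, ?_⟩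
        rw [PowerSeries.constantCoeff_inv, hc, map_inv₀]
      exact IsUnit.of_mul_eq_one ⟨(f.1)⁻¹, h2⟩ (Subtype.ext h1)
    obtain ⟨m, hm⟩ := IsDiscreteValuationRing.associated_pow_irreducible ha'
      (PowerSeries.X_prime (R := K)).irreducible
    have h1 : a.1 ∣ f.1 ^ m :=
      hm.dvd.trans (pow_dvd_pow_of_dvd (PowerSeries.X_dvd_iff.2 hf0) m)
    obtain ⟨w, hw⟩ := h1
    have h2 : f.1 ^ (m + 1) = a.1 * (w * f.1) := by
      rw [pow_succ, hw, mul_assoc]
    have h3 : w * f.1 ∈ RB k p r α he := by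
      rw [pl_mem_iff he hd]
      refine ⟨H133FI.InV_div (H133FI.InV_pow hfV (m + 1)) (hin a).1 ha' h2, 0, ?_⟩
      rw [map_mul, hf0]
      simp
    exact ⟨m + 1, ⟨w * f.1, h3⟩, Subtype.ext h2⟩
  · -- root
    intro a b c hb h
    have hb' : b.1 ≠ 0 := fun h => hb (Subtype.ext h)
    have h' : a.1 ^ p = c.1 * b.1 ^ p := congrArg Subtype.val h
    have hdvd : b.1 ∣ a.1 := by
      rcases ValuationRing.dvd_total b.1 a.1 with h1 | h1
      · exact h1
      · obtain ⟨e, he'⟩ := h1
        by_cases ha0 : a.1 = 0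
        · rw [ha0]
          exact dvd_zero _
        · have h2 : a.1 ^ p * (c.1 * e ^ p) = a.1 ^ p * 1 := by
            rw [mul_one]
            conv_rhs => rw [h', he']
            rw [mul_pow]
            ring
          have h3 := mul_left_cancel₀ (pow_ne_zero p ha0) h2
          have h4 : IsUnit (e ^ p) := IsUnit.of_mul_eq_one c.1 (by rw [← h3]; ring)
          have h5 : IsUnit e := (isUnit_pow_iff hp0).1 h4
          obtain ⟨u, rfl⟩ := h5
          refine ⟨(↑u⁻¹ : PowerSeries K), ?_⟩
          rw [he', mul_assoc, Units.mul_inv, mul_one]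
    obtain ⟨v, hv⟩ := hdvd
    have hv2 : v ^ p = c.1 := by
      have h1 : b.1 ^ p * v ^ p = b.1 ^ p * c.1 := by
        rw [← mul_pow, ← hv, h']
        ring
      exact mul_left_cancel₀ (pow_ne_zero p hb') h1
    obtain ⟨_, c0, hc0⟩ := hin c
    have hv0 : ∃ d : k, PowerSeries.constantCoeff v = algebraMap k K d := by
      apply hd.closed
      refine ⟨c0, ?_⟩
      rw [← map_pow, hv2, hc0]
    have hvm : v ∈ RB k p r α he := by
      rw [pl_mem_iff he hd]
      exact ⟨H133FI.InV_div (hin a).1 (hin b).1 hb' hv, hv0⟩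
    exact ⟨⟨v, hvm⟩, Subtype.ext hv⟩
  · -- rel
    apply Subtype.ext
    change pl k p r α he (x2 p r k s t ^ p) = pl k p r α he (cst p r k s * x1 p r k s t ^ p +
      cst p r k t * x0 p r k ^ p)
    rw [map_add, map_mul, map_mul, map_pow, map_pow, map_pow, pl_x2 he hd hp, pl_x1 he hd hp,
      pl_x0 he hd hp, pl_cst, pl_cst, mul_pow, mul_pow, mul_pow, ← map_pow, ← map_pow, ← map_pow,
      ← mul_assoc, ← mul_assoc, ← add_mul, ← map_mul, ← map_mul, ← map_add]
    congr 2
    have h1 : (α ^ p) ^ p = algebraMap k K s * α ^ p + algebraMap k K t := by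
      rw [← hd.rel, ← pow_mul]
      congr 1
      ring
    rw [mul_pow, mul_pow, h1]
    ring
  · -- notMem
    intro hmem
    rw [Ideal.mem_span_pair] at hmem
    obtain ⟨f, g, hfg⟩ := hmem
    have h1 : f.1 * pl k p r α he (x0 p r k) + g.1 * pl k p r α he (x1 p r k s t) =
      pl k p r α he (x2 p r k s t) := congrArg Subtype.val hfg
    rw [pl_x2 he hd hp, pl_x1 he hd hp, pl_x0 he hd hp, ← mul_assoc, ← mul_assoc, ← add_mul] at h1
    have h2 := mul_right_cancel₀ PowerSeries.X_ne_zero h1
    have h3 := congrArg PowerSeries.constantCoeff h2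
    obtain ⟨_, c, hc⟩ := hin f
    obtain ⟨_, d, hdd⟩ := hin g
    simp only [map_add, map_mul, PowerSeries.constantCoeff_C, hc, hdd] at h3
    have h4 : algebraMap k K c + algebraMap k K d * α = α ^ p := by
      refine mul_left_cancel₀ (pow_ne_zero (p ^ 2 - 1) hα) ?_
      rw [← h3]
      ring
    have h5 := Fintype.linearIndependent_iff.1 hd.indep
      (fun i => (if (i : ℕ) = 0 then c else 0) + (if (i : ℕ) = 1 then d else 0) -
        (if (i : ℕ) = p then 1 else 0)) (by
      have q0 : ∀ (n : ℕ) (hn : n < p ^ 2) (x : k),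
          ∑ i : Fin (p ^ 2), (if (i : ℕ) = n then x else 0) • α ^ (i : ℕ) = x • α ^ n := by
        intro n hn x
        rw [Finset.sum_eq_single ⟨n, hn⟩]
        · rw [if_pos rfl]
        · intro i _ hi
          rw [if_neg, zero_smul]
          intro h
          exact hi (Fin.ext h)
        · intro h
          exact absurd (Finset.mem_univ _) h
      simp only [sub_smul, add_smul, Finset.sum_sub_distrib, Finset.sum_add_distrib]
      rw [q0 0 (by omega), q0 1 (by omega), q0 p (by omega), pow_zero, pow_one, Algebra.smul_def,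
        Algebra.smul_def, Algebra.smul_def, mul_one, map_one, one_mul, h4, sub_self])
      ⟨p, by omega⟩
    simp only [if_neg hp0, if_pos trivial, if_neg (show ¬ p = 1 by omega)] at h5
    simp at h5
  · -- ne
    intro h
    have h1 : pl k p r α he (x0 p r k) = 0 := congrArg Subtype.val h
    rw [pl_x0 he hd hp] at h1
    have h2 : (PowerSeries.C (α ^ (p ^ 2 - 1)) : PowerSeries K) ≠ 0 := by
      intro h3
      have h4 := congrArg PowerSeries.constantCoeff h3
      rw [PowerSeries.constantCoeff_C, map_zero] at h4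
      exact pow_ne_zero _ hα h4
    exact mul_ne_zero h2 PowerSeries.X_ne_zero h1
  · -- kz
    intro i
    exact Subtype.ext (pl_zz he i)

end Pool.Agent.Y758.FI
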