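import Pool.Agent.Y758.FI.Stm
import Pool.Agent.H503R3.FI.Pull
import Pool.Agent.H503R3.FI.TaskC2

/-! Project FI, part E (helper681): `RR π` is F-injective, in every characteristic `p`.
Adaptation of `Pool/Agent/H503R3/FI/TaskE.lean`. -/

set_option autoImplicit false

open IsLocalRing H503R3.FI

namespace Pool.Agent.Y758.FI.PartE

universe u

section frob

variable {A : Type u} [CommRing A] {p : ℕ}

theorem add_pow_p (hp : p.Prime) (h : (p : A) = 0) (a b : A) :
    (a + b) ^ p = a ^ p + b ^ p := by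
  rcases subsingleton_or_nontrivial A with hs | hn
  · exact Subsingleton.elim _ _
  · have : Fact p.Prime := ⟨hp⟩
    have : CharP A p := (CharP.charP_iff_prime_eq_zero hp).mpr h
    exact add_pow_char a b p

theorem sub_pow_p (hp : p.Prime) (h : (p : A) = 0) (a b : A) :
    (a - b) ^ p = a ^ p - b ^ p := by
  have := add_pow_p hp h (a - b) b
  rw [sub_add_cancel] at this
  rw [this, add_sub_cancel_right]

theorem sum_pow_p (hp : p.Prime) (h : (p : A) = 0) {ι : Type*} (s : Finset ι)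
    (f : ι → A) : (∑ i ∈ s, f i) ^ p = ∑ i ∈ s, f i ^ p := by
  classical
  induction s using Finset.induction_on with
  | empty => simp [hp.ne_zero]
  | insert a s ha ih =>
    rw [Finset.sum_insert ha, Finset.sum_insert ha, ← ih, add_pow_p hp h]

theorem neg_one_pow_p (hp : p.Prime) (h : (p : A) = 0) : (-1 : A) ^ p = -1 := by
  have := sub_pow_p hp h (0 : A) 1
  rwa [zero_sub, zero_pow hp.ne_zero, one_pow, zero_sub] at this

theorem sign_pow_p (hp : p.Prime) (h : (p : A) = 0) (m : ℕ) :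
    ((-1 : A) ^ m) ^ p = (-1) ^ m := by
  rw [← pow_mul, mul_comm, pow_mul, neg_one_pow_p hp h]

end frob

section general

variable {B : Type} [CommRing B] {n p : ℕ}

theorem p_eq_zero_L (h2 : (p : B) = 0) (x : Fin n → B) {i : ℕ} (j : Fin i → Fin n) :
    (p : L x j) = 0 := by
  have := congrArg (algebraMap B (L x j)) h2
  rwa [map_natCast, map_zero] at this

theorem d_pow (hp : p.Prime) (h2 : (p : B) = 0) (x : Fin n → B) (i : ℕ) (c : Cochain x i) :
    d x i (fun j => c j ^ p) = fun j => (d x i c j) ^ p := by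
  funext j
  have h2' := p_eq_zero_L h2 x j
  rw [d_apply, d_apply, sum_pow_p hp h2']
  apply Finset.sum_congr rfl
  intro m _
  rw [mul_pow, sign_pow_p hp h2', map_pow]

/-- A Frobenius splitting of `B` acts on Cech complexes. -/
theorem exists_splitC {φ : B → B} (hp : 0 < p) (h : FSplit p B φ) (x : Fin n → B) :
    ∃ Φ : ∀ i, Cochain x i → Cochain x i,
      (∀ i c, Φ (i + 1) (d x i c) = d x i (Φ i c)) ∧ ∀ i c, Φ i (fun j => c j ^ p) = c := by
  have key : ∀ (i : ℕ) (j : Fin i → Fin n), ∃ φ' : L x j → L x j, FSplit p (L x j) φ' ∧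
      ∀ b, φ' (algebraMap B (L x j) b) = algebraMap B (L x j) (φ b) := fun i j =>
    H503R3.FI.TaskC2.taskC2 p hp B φ (Submonoid.powers (∏ l, x (j l))) (L x j) h
  choose ψ hψ hψ2 using key
  refine ⟨fun i c j => ψ i j (c j), ?_, ?_⟩
  · intro i c
    funext j
    change ψ (i + 1) j (d x i c j) = _
    rw [d_apply, d_apply, (hψ _ _).sum]
    apply Finset.sum_congr rfl
    intro m _
    rw [(hψ _ _).sign]
    congr 1
    exact h.natural (Submonoid.powers (∏ l, x ((j ∘ m.succAbove) l))) (L x (j ∘ m.succAbove))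
      (L x j) (hψ i (j ∘ m.succAbove)) (hψ (i + 1) j) (hψ2 _ _) (hψ2 _ _)
      (res x (j ∘ m.succAbove) j (Set.range_comp_subset_range _ _))
      (res_algebraMap _ _ _ _) hp _
  · intro i c
    funext j
    exact (hψ i j).pow _

end general

section curve

variable {B : Type u} [CommRing B] {n : ℕ} {x : Fin n → B} {j0 : Fin n}

theorem range_elim0 (s : Set (Fin n)) : Set.range (Fin.elim0 : Fin 0 → Fin n) ⊆ s := by
  rintro _ ⟨k, _⟩
  exact k.elim0

theorem exact_one_p {p : ℕ} [IsDomain B] (h0 : x j0 ≠ 0)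
    (hdiv : ∀ l, ∃ N : ℕ, x j0 ∣ x l ^ N)
    (hroot : ∀ a b c : B, b ≠ 0 → a ^ p = c * b ^ p → b ∣ a)
    (h : Cochain x 1) (hd : d x 1 h = 0) (t : Cochain x 0)
    (ht : d x 0 t = fun j => h j ^ p) : ∃ r : Cochain x 0, d x 0 r = h := by
  have hres : ∀ (r : Cochain x 0) (r0 : B), r Fin.elim0 = algebraMap B _ r0 →
      ∀ j : Fin 1 → Fin n, d x 0 r j = algebraMap B _ r0 := by
    intro r r0 hr j
    rw [d_apply, Fin.sum_univ_one]
    have h2 : j ∘ (0 : Fin 1).succAbove = Fin.elim0 := funext fun k => k.elim0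
    rw [res_congr x r h2 j (Set.range_comp_subset_range _ _) (range_elim0 _), hr,
      res_algebraMap]
    simp
  obtain ⟨t0, ht0⟩ := algebraMap_surjective_zero x Fin.elim0 (t Fin.elim0)
  have hinj := algebraMap_injective_L x (fun _ : Fin 1 => j0) (fun _ => h0)
  obtain ⟨r0, hr0⟩ : ∃ r0 : B, h (fun _ => j0) = algebraMap B _ r0 := by
    obtain ⟨a, s, hz⟩ := IsLocalization.exists_mk'_eq
      (Submonoid.powers (∏ l : Fin 1, x ((fun _ : Fin 1 => j0) l))) (h (fun _ => j0))
    obtain ⟨m, hm⟩ := s.2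
    have hs : (s : B) = x j0 ^ m := by
      rw [← hm]
      simp
    have hs0 : (s : B) ≠ 0 := by
      rw [hs]
      exact pow_ne_zero _ h0
    have h1 := IsLocalization.mk'_spec (L x (fun _ : Fin 1 => j0)) a s
    rw [hz] at h1
    have h2 : h (fun _ => j0) ^ p = algebraMap B _ t0 := by
      have := congrFun ht (fun _ => j0)
      rw [hres t t0 ht0.symm] at this
      exact this.symm
    have h3 : a ^ p = t0 * (s : B) ^ p := by
      apply hinj
      rw [map_mul, map_pow, map_pow, ← h1, ← h2]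
      ring
    obtain ⟨r0, hr⟩ := hroot a s t0 hs0 h3
    refine ⟨r0, ?_⟩
    have hu : IsUnit (algebraMap B (L x (fun _ : Fin 1 => j0)) (s : B)) :=
      IsLocalization.map_units _ s
    apply hu.mul_right_cancel
    rw [h1, hr, map_mul, mul_comm]
  refine ⟨fun j => algebraMap B _ r0, ?_⟩
  funext j
  rw [hres _ r0 rfl]
  apply res_injective hdiv j
  rw [res_algebraMap, d_cons 0 h hd j, Fin.sum_univ_one]
  have h2 : (Fin.cons j0 (j ∘ (0 : Fin 1).succAbove) : Fin 1 → Fin n) = fun _ => j0 := by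
    funext k
    have : k = 0 := by
      apply Fin.ext
      have := k.2
      simp only [Fin.val_zero]
      omega
    subst this
    simp
  rw [res_congr x h h2 (Fin.cons j0 j) (range_cons_mono _ _ (Set.range_comp_subset_range _ _))
    (by rw [← h2]; exact range_cons_mono _ _ (Set.range_comp_subset_range _ _)), hr0,
    res_algebraMap]
  simp

end curve

/-- The main argument. -/
theorem main {p : ℕ} (hp : p.Prime) {T0 R0 : Type} [CommRing T0] [CommRing R0] [IsDomain T0]
    [IsDomain R0] (h2T : (p : T0) = 0)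
    (π : T0 →+* R0) (hsurj : Function.Surjective π)
    (hroot : ∀ a b c : R0, b ≠ 0 → a ^ p = c * b ^ p → b ∣ a)
    {n : ℕ} {x : Fin n → RR π} {x1 x2 : Fin n → T0} {xb : Fin n → R0}
    (h1 : ∀ l, f1 π (x l) = x1 l) (h2 : ∀ l, f2 π (x l) = x2 l)
    (hb1 : ∀ l, π (x1 l) = xb l) (hb2 : ∀ l, π (x2 l) = xb l)
    (j0 : Fin n) (hj0 : xb j0 ≠ 0) (hdiv : ∀ l, ∃ N : ℕ, xb j0 ∣ xb l ^ N)
    (hT1 : ∀ c : Cochain x1 1, d x1 1 c = 0 → ∃ b : Cochain x1 0, d x1 0 b = c)
    (hT2 : ∀ c : Cochain x2 1, d x2 1 c = 0 → ∃ b : Cochain x2 0, d x2 0 b = c)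
    (Φ1 : ∀ i, Cochain x1 i → Cochain x1 i)
    (hΦ1 : ∀ i c, Φ1 (i + 1) (d x1 i c) = d x1 i (Φ1 i c))
    (hΦ1' : ∀ i c, Φ1 i (fun j => c j ^ p) = c)
    (Φ2 : ∀ i, Cochain x2 i → Cochain x2 i)
    (hΦ2 : ∀ i c, Φ2 (i + 1) (d x2 i c) = d x2 i (Φ2 i c))
    (hΦ2' : ∀ i c, Φ2 i (fun j => c j ^ p) = c)
    (i : ℕ) (c : Cochain x (i + 1)) (hc : d x (i + 1) c = 0) (b : Cochain x i)
    (hb : d x i b = fun j => c j ^ p) : ∃ g : Cochain x i, d x i g = c := by
  set c1 := mapC (f1 π) h1 (i + 1) c with hc1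
  set c2 := mapC (f2 π) h2 (i + 1) c with hc2
  set b1 := mapC (f1 π) h1 i b with hb1'
  set b2 := mapC (f2 π) h2 i b with hb2'
  have hd1 : d x1 i b1 = fun j => c1 j ^ p := by
    rw [hb1', ← mapC_d, hb]
    funext j
    exact map_pow _ _ _
  have hd2 : d x2 i b2 = fun j => c2 j ^ p := by
    rw [hb2', ← mapC_d, hb]
    funext j
    exact map_pow _ _ _
  set g1 := Φ1 i b1 with hg1
  set g2 := Φ2 i b2 with hg2
  have hdg1 : d x1 i g1 = c1 := by rw [hg1, ← hΦ1, hd1, hΦ1']
  have hdg2 : d x2 i g2 = c2 := by rw [hg2, ← hΦ2, hd2, hΦ2']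
  -- compatibility of the two projections
  have hcomm : ∀ (i : ℕ) (c : Cochain x i),
      mapC π hb1 i (mapC (f1 π) h1 i c) = mapC π hb2 i (mapC (f2 π) h2 i c) := by
    intro i c
    funext j
    have e1 : ∀ l, (π.comp (f1 π)) (x l) = xb l := fun l => by
      rw [RingHom.comp_apply, h1, hb1]
    have e2 : ∀ l, (π.comp (f2 π)) (x l) = xb l := fun l => by
      rw [RingHom.comp_apply, h2, hb2]
    have e : (mapL (π.comp (f1 π)) e1 j : L x j →+* L xb j) = mapL (π.comp (f2 π)) e2 j := by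
      apply hom_ext_L
      intro b
      rw [mapL_algebraMap, mapL_algebraMap, RingHom.comp_apply, RingHom.comp_apply, f1_f2]
    change mapL π hb1 j (mapL (f1 π) h1 j (c j)) = mapL π hb2 j (mapL (f2 π) h2 j (c j))
    rw [mapL_mapL _ _ _ _ e1, mapL_mapL _ _ _ _ e2, e]
  set h := mapC π hb1 i g1 - mapC π hb2 i g2 with hh
  have hdh : d xb i h = 0 := by
    rw [hh, d_sub, ← mapC_d, ← mapC_d, hdg1, hdg2, hc1, hc2, hcomm, sub_self]
  have h2R : (p : R0) = 0 := by
    have := congrArg π h2T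
    rwa [map_natCast, map_zero] at this
  -- the key claim: `h` comes from a coboundary that lifts to `T`
  have key : ∃ r1 : Cochain x1 i, mapC π hb1 i r1 = h ∧ d x1 i r1 = 0 := by
    match i, c, hc, b, hb, c1, hc1, c2, hc2, b1, hb1', b2, hb2', hd1, hd2, g1, hg1, g2, hg2,
      hdg1, hdg2, h, hh, hdh with
    | 0, c, hc, b, hb, c1, hc1, c2, hc2, b1, hb1', b2, hb2', hd1, hd2, g1, hg1, g2, hg2,
      hdg1, hdg2, h, hh, hdh =>
      have h0 := exact_zero hj0 h hdh
      refine ⟨0, ?_, ?_⟩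
      · rw [h0]
        funext j
        exact map_zero _
      · funext j
        rw [d_apply]
        change ∑ m : Fin 1, (-1) ^ (m : ℕ) * res x1 _ j _ 0 = 0
        simp
    | 1, c, hc, b, hb, c1, hc1, c2, hc2, b1, hb1', b2, hb2', hd1, hd2, g1, hg1, g2, hg2,
      hdg1, hdg2, h, hh, hdh =>
      obtain ⟨t1, ht1⟩ := hT1 ((fun j => g1 j ^ p) - b1) (by
        rw [d_sub, d_pow hp h2T, hdg1, hd1, sub_self])
      obtain ⟨t2, ht2⟩ := hT2 ((fun j => g2 j ^ p) - b2) (by
        rw [d_sub, d_pow hp h2T, hdg2, hd2, sub_self])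
      have hsq : d xb 0 (mapC π hb1 0 t1 - mapC π hb2 0 t2) = fun j => h j ^ p := by
        rw [d_sub, ← mapC_d, ← mapC_d, ht1, ht2, mapC_sub, mapC_sub, hb1', hb2', hcomm]
        funext j
        have h2' := p_eq_zero_L h2R xb j
        rw [hh]
        simp only [Pi.sub_apply, mapC, map_pow]
        rw [sub_pow_p hp h2']
        ring
      obtain ⟨r, hr⟩ := exact_one_p hj0 hdiv hroot h hdh _ hsq
      choose r1 hr1 using fun j => mapL_surjective π hsurj hb1 j (r j)
      refine ⟨d x1 0 r1, ?_, d_d _ _ _⟩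
      rw [mapC_d, ← hr]
      congr 1
      funext j
      exact hr1 j
    | i + 2, c, hc, b, hb, c1, hc1, c2, hc2, b1, hb1', b2, hb2', hd1, hd2, g1, hg1, g2, hg2,
      hdg1, hdg2, h, hh, hdh =>
      obtain ⟨r, hr⟩ := exact_ge_two hdiv i h hdh
      choose r1 hr1 using fun j => mapL_surjective π hsurj hb1 j (r j)
      refine ⟨d x1 (i + 1) r1, ?_, d_d _ _ _⟩
      rw [mapC_d, ← hr]
      congr 1
      funext j
      exact hr1 j
  obtain ⟨r1, hr1, hr2⟩ := key
  have hpull : ∀ j, ∃ g : L x j, mapL (f1 π) h1 j g = (g1 - r1) j ∧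
      mapL (f2 π) h2 j g = g2 j := by
    intro j
    apply pull_surjective h1 h2 hb1 hb2
    have := congrFun hr1 j
    rw [Pi.sub_apply, map_sub]
    have e : mapL π hb1 j (r1 j) = mapL π hb1 j (g1 j) - mapL π hb2 j (g2 j) := this
    rw [e]
    ring
  choose g hga hgb using hpull
  refine ⟨g, ?_⟩
  have e1 : mapC (f1 π) h1 i g = g1 - r1 := funext hga
  have e2 : mapC (f2 π) h2 i g = g2 := funext hgb
  have e3 : mapC (f1 π) h1 (i + 1) (d x i g - c) = 0 := by
    rw [mapC_sub, mapC_d, e1, d_sub, hr2, hdg1, sub_zero, hc1, sub_self]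
  have e4 : mapC (f2 π) h2 (i + 1) (d x i g - c) = 0 := by
    rw [mapC_sub, mapC_d, e2, hdg2, hc2, sub_self]
  have e5 : d x i g - c = 0 := by
    funext j
    exact pull_injective h1 h2 j _ (congrFun e3 j) (congrFun e4 j)
  exact sub_eq_zero.mp e5

end Pool.Agent.Y758.FI.PartE

namespace Pool.Agent.Y758.FI

open PartE

theorem FI_E : S_E := by
  intro p r T R0 _ _ _ π y0 y1 y2 z s t hA hπ hloc hmax n x hx i c hc hcob
  have hp := hA.prime
  obtain ⟨φ, hφ⟩ := hA.split
  have hdomT : IsDomain T := hA.dom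
  have hdomR := hπ.dom
  have h2T : (p : T) = 0 := by
    have := hA.char
    exact CharP.cast_eq_zero T p
  have hlocR : IsLocalRing R0 := IsLocalRing.of_surjective' π hπ.surj
  set x1 : Fin n → T := fun l => f1 π (x l) with hx1
  set x2 : Fin n → T := fun l => f2 π (x l) with hx2
  set xb : Fin n → R0 := fun l => π (x1 l) with hxb
  have hb2 : ∀ l, π (x2 l) = xb l := fun l => (f1_f2 (x l)).symm
  -- the elements of `x` are in the maximal ideal
  have hxm : ∀ l, x l ∈ maximalIdeal (RR π) := by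
    intro l
    rw [← hx]
    exact Ideal.le_radical (Ideal.subset_span ⟨l, rfl⟩)
  have hx1m : ∀ l, x1 l ∈ maximalIdeal T := fun l => (hmax (x l)).mp (hxm l)
  have hxbnu : ∀ l, ¬ IsUnit (xb l) := by
    intro l hu
    have h1 : IsLocalHom π := IsLocalHom.of_surjective π hπ.surj
    exact hx1m l (h1.map_nonunit _ hu)
  -- radicals
  have hdiag : ∀ a ∈ maximalIdeal T, ∃ N : ℕ,
      a ^ N ∈ Ideal.span (Set.range x1) ∧ a ^ N ∈ Ideal.span (Set.range x2) := by
    intro a ha
    obtain ⟨r, hr1, hr2⟩ := exists_RR (π := π) a a rfl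
    have hr : r ∈ maximalIdeal (RR π) := by
      rw [hmax]
      change f1 π r ∈ _
      rw [hr1]
      exact ha
    rw [← hx] at hr
    obtain ⟨N, hN⟩ := hr
    refine ⟨N, ?_, ?_⟩
    · have := Ideal.mem_map_of_mem (f1 π) hN
      rw [Ideal.map_span, map_pow, hr1, ← Set.range_comp] at this
      exact this
    · have := Ideal.mem_map_of_mem (f2 π) hN
      rw [Ideal.map_span, map_pow, hr2, ← Set.range_comp] at this
      exact this
  have hx2m : ∀ l, x2 l ∈ maximalIdeal T := by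
    intro l
    rw [mem_maximalIdeal, mem_nonunits_iff]
    intro hu
    apply hxbnu l
    rw [← hb2]
    exact hu.map π
  have hrad1 : (Ideal.span (Set.range x1)).radical = maximalIdeal T := by
    apply le_antisymm
    · refine (Ideal.IsPrime.radical_le_iff (maximalIdeal.isMaximal T).isPrime).mpr ?_
      rw [Ideal.span_le]
      rintro _ ⟨l, rfl⟩
      exact hx1m l
    · intro a ha
      obtain ⟨N, hN, -⟩ := hdiag a ha
      exact ⟨N, hN⟩
  have hrad2 : (Ideal.span (Set.range x2)).radical = maximalIdeal T := by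
    apply le_antisymm
    · refine (Ideal.IsPrime.radical_le_iff (maximalIdeal.isMaximal T).isPrime).mpr ?_
      rw [Ideal.span_le]
      rintro _ ⟨l, rfl⟩
      exact hx2m l
    · intro a ha
      obtain ⟨N, -, hN⟩ := hdiag a ha
      exact ⟨N, hN⟩
  -- some `xb j0` is nonzero
  have hX0 : y0 ∈ maximalIdeal T := by
    rw [← hA.rad]
    exact Ideal.le_radical (Ideal.subset_span (Or.inl (Or.inl rfl)))
  obtain ⟨j0, hj0⟩ : ∃ j0, xb j0 ≠ 0 := by
    by_contra hcon
    push Not at hcon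
    obtain ⟨N, hN, -⟩ := hdiag _ hX0
    have h1 := Ideal.mem_map_of_mem π hN
    rw [Ideal.map_span, map_pow, ← Set.range_comp] at h1
    have h2 : Ideal.span (Set.range (π ∘ x1)) = ⊥ := by
      rw [Ideal.span_eq_bot]
      rintro _ ⟨l, rfl⟩
      exact hcon l
    rw [h2, Submodule.mem_bot] at h1
    have hN0 : N ≠ 0 := by
      rintro rfl
      simp at h1
    exact hπ.ne ((pow_eq_zero_iff hN0).mp h1)
  have hdiv : ∀ l, ∃ N : ℕ, xb j0 ∣ xb l ^ N := fun l => hπ.dim1 _ hj0 _ (hxbnu l)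
  obtain ⟨Φ1, hΦ1, hΦ1'⟩ := PartE.exists_splitC hp.pos hφ x1
  obtain ⟨Φ2, hΦ2, hΦ2'⟩ := PartE.exists_splitC hp.pos hφ x2
  match i, c, hc, hcob with
  | 0, c, hc, hcob =>
    change (fun j => c j ^ p) = 0 at hcob
    change c = 0
    funext j
    have h0 : c j ^ p = 0 := congrFun hcob j
    obtain ⟨a, ha⟩ := algebraMap_surjective_zero x j (c j)
    apply pull_injective (π := π) (x1 := x1) (x2 := x2) (fun _ => rfl) (fun _ => rfl) j
    · have e := congrArg (mapL (f1 π) (fun _ => rfl) j : L x j →+* L x1 j) h0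
      rw [map_pow, map_zero, ← ha, mapL_algebraMap, ← map_pow] at e
      have hinj : Function.Injective (algebraMap T (L x1 j)) :=
        algebraMap_injective_L x1 j (fun l => l.elim0)
      have e2 : f1 π a ^ p = 0 := hinj (by rw [e, map_zero])
      rw [← ha, mapL_algebraMap, pow_eq_zero_iff hp.ne_zero |>.mp e2, map_zero]
    · have e := congrArg (mapL (f2 π) (fun _ => rfl) j : L x j →+* L x2 j) h0
      rw [map_pow, map_zero, ← ha, mapL_algebraMap, ← map_pow] at e
      have hinj : Function.Injective (algebraMap T (L x2 j)) :=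
        algebraMap_injective_L x2 j (fun l => l.elim0)
      have e2 : f2 π a ^ p = 0 := hinj (by rw [e, map_zero])
      rw [← ha, mapL_algebraMap, pow_eq_zero_iff hp.ne_zero |>.mp e2, map_zero]
  | i + 1, c, hc, hcob =>
    obtain ⟨b, hb⟩ := hcob
    exact PartE.main hp h2T π hπ.surj hπ.root (x1 := x1) (x2 := x2) (xb := xb) (fun _ => rfl)
      (fun _ => rfl) (fun _ => rfl) hb2 j0 hj0 hdiv (hA.depth n x1 hrad1) (hA.depth n x2 hrad2)
      Φ1 hΦ1 hΦ1' Φ2 hΦ2 hΦ2' i c hc b hb

end Pool.Agent.Y758.FI
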