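import Pool.Agent.Y758.FI.Stm

/-! Project FI (helper758), part F1 (helper409): adapted from `Pool/Agent/H884R3/FI/TaskF1.lean`. -/

set_option autoImplicit false

open IsLocalRing

namespace Pool.Agent.Y758.FI

open H503R3.FI (RR)

namespace F1X

theorem isUnit_iff {T : Type} [CommRing T] {R0 : Type} [CommRing R0] [IsLocalRing T]
    [Nontrivial R0] {π : T →+* R0} (hsurj : Function.Surjective π) (r : RR π) :
    IsUnit r ↔ IsUnit r.1.1 := by
  have hloc : IsLocalHom π := IsLocalHom.of_surjective π hsurj
  constructor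
  · intro h
    exact h.map ((RingHom.fst T T).comp (RR π).subtype)
  · intro h
    have hr : π r.1.1 = π r.1.2 := r.2
    have h2 : IsUnit r.1.2 := by
      refine isUnit_of_map_unit π _ ?_
      rw [← hr]
      exact h.map π
    obtain ⟨a, ha⟩ := h.exists_right_inv
    obtain ⟨b, hb⟩ := h2.exists_right_inv
    have hab : π a = π b := by
      have h3 : π r.1.1 * π a = 1 := by rw [← map_mul, ha, map_one]
      have h4 : π r.1.1 * π b = 1 := by rw [hr, ← map_mul, hb, map_one]
      calc π a = (π r.1.1 * π b) * π a := by rw [h4, one_mul]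
        _ = (π r.1.1 * π a) * π b := by ring
        _ = π b := by rw [h3, one_mul]
    refine IsUnit.of_mul_eq_one ⟨(a, b), hab⟩ ?_
    apply Subtype.ext
    exact Prod.ext ha hb

end F1X

theorem FI_F1 : S_F1 := by
  intro p r T R0 _ _ _ π x0 x1 x2 z s t hA hM
  have hT := hA.dom
  have hR := hM.dom
  have h2 : CharP T p := hA.char
  have h3 : CharP (T × T) p := by
    have e := @Nat.lcm.charP T T _ _ p p h2 h2
    rwa [Nat.lcm_self] at e
  have hloc : IsLocalRing (RR π) := by
    have : Nontrivial (RR π) := by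
      refine ⟨0, 1, fun h => ?_⟩
      have h4 := congrArg (fun r : RR π => r.1.1) h
      exact zero_ne_one h4
    refine IsLocalRing.of_isUnit_or_isUnit_one_sub_self fun r => ?_
    rw [F1X.isUnit_iff hM.surj, F1X.isUnit_iff hM.surj]
    exact IsLocalRing.isUnit_or_isUnit_one_sub_self r.1.1
  refine ⟨RingHom.charP (RR π).subtype Subtype.val_injective p, hloc, fun r => ?_⟩
  rw [mem_maximalIdeal, mem_maximalIdeal, mem_nonunits_iff, mem_nonunits_iff,
    F1X.isUnit_iff hM.surj]

end Pool.Agent.Y758.FI
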