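import Pool.Agent.Y758.FI.Stm

/-! Project FI, part F2 (helper692, after `H503R3.FI.TaskF2`): the ring `RR π` is Noetherian and
essentially of finite type. -/

set_option autoImplicit false

open IsLocalRing

namespace Pool.Agent.Y758.FI

open H503R3.FI (RR)

/-- The diagonal map. -/
def diag {T0 R0 : Type} [CommRing T0] [CommRing R0] (π : T0 →+* R0) : T0 →+* RR π :=
  RingHom.codRestrict ((RingHom.id T0).prod (RingHom.id T0)) (RR π) (fun _ => rfl)

theorem finite_diag {T0 R0 : Type} [CommRing T0] [IsNoetherianRing T0] [CommRing R0]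
    (π : T0 →+* R0) : (diag π).Finite := by
  letI : Algebra T0 (RR π) := (diag π).toAlgebra
  let ι : RR π →ₗ[T0] (T0 × T0) :=
    { toFun := fun r => r.1
      map_add' := fun _ _ => rfl
      map_smul' := fun c r => by
        rw [Algebra.smul_def]
        rfl }
  have hι : Function.Injective ι := Subtype.val_injective
  have : IsNoetherian T0 (RR π) := isNoetherian_of_injective ι hι
  show Module.Finite T0 (RR π)
  infer_instance

theorem FI_F2 : S_F2 := by
  intro k T R0 _ _ _ _ _ _ π
  letI : Algebra T (RR π) := (diag π).toAlgebra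
  haveI : Module.Finite T (RR π) := finite_diag π
  refine ⟨IsNoetherianRing.of_finite T (RR π), ?_⟩
  letI : Algebra k (RR π) := ((diag π).comp (algebraMap k T)).toAlgebra
  haveI : IsScalarTower k T (RR π) := IsScalarTower.of_algebraMap_eq (fun _ => rfl)
  exact ⟨inferInstance, Algebra.EssFiniteType.comp k T (RR π)⟩

end Pool.Agent.Y758.FI
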