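import Pool.Agent.Y758.FI.Stm
import Pool.Agent.H503R3.FI.TaskF4

/-! Project FI, job FI-F4 (helper903): dimension of the amalgamated duplication (adapted from
`Pool.Agent.H503R3.FI.TaskF4` of the starting library). -/

set_option autoImplicit false

open IsLocalRing

namespace Pool.Agent.Y758.FI

open H503R3.FI (RR)
open H503R3.FI.TaskF4 (p1 p2 p1_surj p2_surj prime_ge dim_le)

theorem FI_F4 : S_F4 := by
  intro T R0 _ _ _ π n hn
  have e1 : ringKrullDim (RR π ⧸ RingHom.ker (p1 π)) = n := by
    rw [ringKrullDim_eq_of_ringEquiv (RingHom.quotientKerEquivOfSurjective (p1_surj π)), hn]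
  have e2 : ringKrullDim (RR π ⧸ RingHom.ker (p2 π)) = n := by
    rw [ringKrullDim_eq_of_ringEquiv (RingHom.quotientKerEquivOfSurjective (p2_surj π)), hn]
  have i1 : (RingHom.ker (p1 π)).IsPrime := RingHom.ker_isPrime _
  have i2 : (RingHom.ker (p2 π)).IsPrime := RingHom.ker_isPrime _
  refine ⟨le_antisymm ?_ ?_, ?_⟩
  · exact dim_le _ _ _ e1.le e2.le (fun P hP => prime_ge π P)
  · rw [← e1]
    exact ringKrullDim_quotient_le _
  · intro P hP
    have hPp : P.IsPrime := hP.1.1
    rcases prime_ge π P with h | h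
    · have : P = RingHom.ker (p1 π) := le_antisymm (hP.2 ⟨i1, bot_le⟩ h) h
      rw [this, e1]
    · have : P = RingHom.ker (p2 π) := le_antisymm (hP.2 ⟨i2, bot_le⟩ h) h
      rw [this, e2]

end Pool.Agent.Y758.FI
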