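import Pool.Agent.Y758.FI.Stm

/-! Project FI (helper758), part G: a parameter ideal of `RR π` which is not Frobenius closed.
Adapted from the end of `Pool/Agent/H503R3/FI/TaskG.lean`. -/

set_option autoImplicit false

open IsLocalRing

namespace Pool.Agent.Y758.FI

open H503R3.FI (RR)

section

variable {T R0 : Type} [CommRing T] [CommRing R0]

/-- Diagonal elements. -/
def dgG (π : T →+* R0) : T →+* RR π where
  toFun u := ⟨(u, u), rfl⟩
  map_one' := rfl
  map_mul' _ _ := rfl
  map_zero' := rfl
  map_add' _ _ := rfl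

/-- First component. -/
def fsG (π : T →+* R0) : RR π →+* T := (RingHom.fst T T).comp (RR π).subtype

/-- Second component. -/
def snG (π : T →+* R0) : RR π →+* T := (RingHom.snd T T).comp (RR π).subtype

end

theorem FI_G : S_G := by
  intro p r T R0 _ _ _ π x0 x1 x2 z s t hr hA hM hloc hmax
  have hp : p ≠ 0 := hA.prime.ne_zero
  let i0 : Fin r := ⟨0, hr⟩
  let y : Fin (r + 2) → T := Fin.cons x0 (Fin.cons x1 z)
  let x : Fin (r + 2) → RR π := fun i => dgG π (y i)
  have hy0 : y 0 = x0 := rfl
  have hy1 : y 1 = x1 := rfl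
  have hys : ∀ i : Fin r, y i.succ.succ = z i := fun i => rfl
  have hyJ : ∀ i, y i ∈ Ideal.span ({x0, x1} ∪ Set.range z) := by
    intro i
    refine Fin.cases ?_ (fun i => ?_) i
    · exact Ideal.subset_span (Or.inl (by simp [hy0]))
    · refine Fin.cases ?_ (fun i => ?_) i
      · exact Ideal.subset_span (Or.inl (by
          change x1 ∈ _
          simp))
      · exact Ideal.subset_span (Or.inr ⟨i, rfl⟩)
  refine ⟨x, ?_, ?_⟩
  · set I := Ideal.span (Set.range x) with hI
    have hxI : ∀ i, x i ∈ I := fun i => Ideal.subset_span ⟨i, rfl⟩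
    apply le_antisymm
    · rw [(maximalIdeal.isMaximal (RR π)).isPrime.radical_le_iff, hI, Ideal.span_le]
      rintro _ ⟨i, rfl⟩
      rw [SetLike.mem_coe, hmax]
      change y i ∈ maximalIdeal T
      rw [← hA.rad]
      exact Ideal.le_radical (hyJ i)
    · intro a har
      have hd : ∀ c ∈ maximalIdeal T, dgG π c ∈ I.radical := by
        intro c hc
        rw [← hA.rad] at hc
        obtain ⟨n, hn⟩ := hc
        refine ⟨n, ?_⟩
        rw [← map_pow]
        have h1 := Ideal.mem_map_of_mem (dgG π) hn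
        rw [Ideal.map_span] at h1
        refine (Ideal.span_le.mpr ?_) h1
        rintro _ ⟨u, hu, rfl⟩
        rcases hu with hu | ⟨i, rfl⟩
        · rcases hu with rfl | hu
          · exact hxI 0
          · rw [Set.mem_singleton_iff] at hu
            rw [hu]
            exact hxI 1
        · exact hxI i.succ.succ
      have ha : a.1.1 ∈ maximalIdeal T := (hmax a).mp har
      have hb : a.1.2 ∈ maximalIdeal T := by
        by_contra hcon
        have hsw : (⟨(a.1.2, a.1.1), a.2.symm⟩ : RR π) ∉ maximalIdeal (RR π) := by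
          rw [hmax]; exact hcon
        rw [mem_maximalIdeal, mem_nonunits_iff, not_not] at hsw
        obtain ⟨v, hv⟩ := hsw.exists_right_inv
        have h2 : a.1.1 * v.1.2 = 1 := congrArg (fun q : RR π => q.1.2) hv
        rw [mem_maximalIdeal, mem_nonunits_iff] at ha
        exact ha (IsUnit.of_mul_eq_one _ h2)
      have hr2 : a ^ 2 = dgG π (a.1.1 + a.1.2) * a - dgG π (a.1.1 * a.1.2) := by
        apply Subtype.ext
        apply Prod.ext
        · change a.1.1 ^ 2 = (a.1.1 + a.1.2) * a.1.1 - a.1.1 * a.1.2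
          ring
        · change a.1.2 ^ 2 = (a.1.1 + a.1.2) * a.1.2 - a.1.1 * a.1.2
          ring
      have h3 : a ^ 2 ∈ I.radical := by
        rw [hr2]
        exact Ideal.sub_mem _ (Ideal.mul_mem_right _ _ (hd _ (Ideal.add_mem _ ha hb)))
          (hd _ (Ideal.mul_mem_right _ _ ha))
      exact Ideal.mem_radical_of_pow_mem h3
  · have hw0 : π (x2 * z i0) = π 0 := by rw [map_mul, hM.kz, mul_zero, map_zero]
    refine ⟨⟨(x2 * z i0, 0), hw0⟩, ?_, ?_⟩
    · intro hz
      rw [Ideal.mem_span_range_iff_exists_fun] at hz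
      obtain ⟨c, hc⟩ := hz
      have h1 := congrArg (fsG π) hc
      have h2 := congrArg (snG π) hc
      rw [map_sum] at h1 h2
      simp only [map_mul] at h1 h2
      change ∑ i, fsG π (c i) * y i = x2 * z i0 at h1
      change ∑ i, snG π (c i) * y i = 0 at h2
      have h3 : ∑ i, (fsG π (c i) - snG π (c i)) * y i = x2 * z i0 := by
        simp only [sub_mul]
        rw [Finset.sum_sub_distrib, h1, h2, sub_zero]
      have hj : ∀ i, π (fsG π (c i) - snG π (c i)) = 0 := by
        intro i
        have : π (c i).1.1 = π (c i).1.2 := (c i).2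
        rw [map_sub]
        change π (c i).1.1 - π (c i).1.2 = 0
        rw [this, sub_self]
      set dd : Fin (r + 2) → T := fun i => fsG π (c i) - snG π (c i) with hdd
      change ∑ i, dd i * y i = x2 * z i0 at h3
      rw [Fin.sum_univ_succ, Fin.sum_univ_succ,
        ← Finset.add_sum_erase Finset.univ (fun i : Fin r => dd i.succ.succ * y i.succ.succ)
          (Finset.mem_univ i0)] at h3
      set J := Ideal.span ({x0, x1} ∪ z '' {j | j ≠ i0}) with hJ
      have j0 : x0 ∈ J := Ideal.subset_span (Or.inl (by simp))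
      have j1 : x1 ∈ J := Ideal.subset_span (Or.inl (by simp))
      have jz : ∀ j : Fin r, j ≠ i0 → z j ∈ J := fun j hj =>
        Ideal.subset_span (Or.inr ⟨j, hj, rfl⟩)
      have hw : (x2 - dd i0.succ.succ) * z i0 ∈ J := by
        have e1 : (x2 - dd i0.succ.succ) * z i0 = dd 0 * x0 + (dd (Fin.succ 0) * x1 +
            ∑ i ∈ Finset.univ.erase i0, dd i.succ.succ * z i) := by
          change dd 0 * x0 + (dd (Fin.succ 0) * x1 + (dd i0.succ.succ * z i0 +
            ∑ i ∈ Finset.univ.erase i0, dd i.succ.succ * z i)) = x2 * z i0 at h3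
          linear_combination -h3
        rw [e1]
        refine Ideal.add_mem _ (Ideal.mul_mem_left _ _ j0) (Ideal.add_mem _
          (Ideal.mul_mem_left _ _ j1) (Ideal.sum_mem _ fun i hi => Ideal.mul_mem_left _ _ (jz i ?_)))
        exact (Finset.mem_erase.1 hi).1
      have hw2 := hA.reg i0 _ hw
      have hw3 := Ideal.mem_map_of_mem π hw2
      rw [Ideal.map_span, map_sub, hj i0.succ.succ, sub_zero] at hw3
      apply hM.notMem
      refine (Ideal.span_le.mpr ?_) hw3
      rintro _ ⟨u, hu, rfl⟩
      rcases hu with hu | ⟨j, -, rfl⟩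
      · rcases hu with rfl | hu
        · exact Ideal.subset_span (by simp)
        · rw [Set.mem_singleton_iff] at hu
          rw [hu]
          exact Ideal.subset_span (by simp)
      · rw [SetLike.mem_coe, hM.kz]
        exact Ideal.zero_mem _
    · have qs : ((s * z i0 ^ p, 0) : T × T) ∈ RR π := by
        change π (s * z i0 ^ p) = π 0
        rw [map_mul, map_pow, hM.kz, zero_pow hp, mul_zero, map_zero]
      have qt : ((t * z i0 ^ p, 0) : T × T) ∈ RR π := by
        change π (t * z i0 ^ p) = π 0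
        rw [map_mul, map_pow, hM.kz, zero_pow hp, mul_zero, map_zero]
      have qb : ((x2 ^ p - (s * x1 ^ p + t * x0 ^ p), 0) : T × T) ∈ RR π := by
        change π (x2 ^ p - (s * x1 ^ p + t * x0 ^ p)) = π 0
        rw [map_sub, hM.rel, sub_self, map_zero]
      have e1 : (⟨(x2 * z i0, 0), hw0⟩ : RR π) ^ p =
          (⟨(t * z i0 ^ p, 0), qt⟩ : RR π) * x 0 ^ p +
          ((⟨(s * z i0 ^ p, 0), qs⟩ : RR π) * x 1 ^ p +
          (⟨(x2 ^ p - (s * x1 ^ p + t * x0 ^ p), 0), qb⟩ : RR π) * x i0.succ.succ ^ p) := by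
        apply Subtype.ext
        apply Prod.ext
        · change (x2 * z i0) ^ p = (t * z i0 ^ p) * x0 ^ p + ((s * z i0 ^ p) * x1 ^ p +
            (x2 ^ p - (s * x1 ^ p + t * x0 ^ p)) * z i0 ^ p)
          rw [mul_pow]
          ring
        · change (0 : T) ^ p = 0 * x0 ^ p + (0 * x1 ^ p + 0 * z i0 ^ p)
          rw [zero_pow hp]
          ring
      rw [e1]
      exact Ideal.add_mem _ (Ideal.mul_mem_left _ _ (Ideal.subset_span ⟨0, rfl⟩))
        (Ideal.add_mem _ (Ideal.mul_mem_left _ _ (Ideal.subset_span ⟨1, rfl⟩))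
          (Ideal.mul_mem_left _ _ (Ideal.subset_span ⟨i0.succ.succ, rfl⟩)))

end Pool.Agent.Y758.FI
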