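import Pool.Agent.Y758.FI.Stm

/-! Project FI: the Veronese type ring (proof by helper768). -/

set_option autoImplicit false

open IsLocalRing MvPolynomial

namespace Pool.Agent.Y758.FI

theorem FI_S0 : S_S0 := by
  classical
  intro p r k _ f
  constructor
  · intro hf
    unfold S at hf
    induction hf using Algebra.adjoin_induction with
    | mem x hx =>
      obtain ⟨m, hm, rfl⟩ := hx
      intro m' hm'
      have h1 := Finset.mem_singleton.1 (support_monomial_subset hm')
      rw [h1]
      exact hm
    | algebraMap c =>
      intro m' hm'
      rw [MvPolynomial.algebraMap_eq, C_apply] at hm'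
      have h1 := Finset.mem_singleton.1 (support_monomial_subset hm')
      rw [h1]
      simp
    | add x y _ _ hx hy =>
      intro m' hm'
      rcases Finset.mem_union.1 (support_add hm') with h | h
      · exact hx m' h
      · exact hy m' h
    | mul x y _ _ hx hy =>
      intro m' hm'
      obtain ⟨a, ha, b, hb, rfl⟩ := Finset.mem_add.1 (support_mul x y hm')
      have h1 := dvd_add (hx a ha) (hy b hb)
      rw [Finsupp.add_apply, Finsupp.add_apply]
      have h2 : a 0 + b 0 + (a 1 + b 1) = a 0 + a 1 + (b 0 + b 1) := by ring
      rw [h2]
      exact h1
  · intro hf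
    rw [← support_sum_monomial_coeff f]
    exact Subalgebra.sum_mem _ fun m hm => monomial_mem p r k m _ (hf m hm)

end Pool.Agent.Y758.FI
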