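import Pool.Agent.Y758.FI.Stm

/-! Project FI, part S1 (helper291): the Veronese type ring is a finitely generated algebra. -/

set_option autoImplicit false

open IsLocalRing MvPolynomial

namespace Pool.Agent.Y758.FI

/-- the finite set of generators -/
def GG (e r : ℕ) (k : Type) [Field k] : Set (P r k) :=
  (fun i : ℕ => (X 1 ^ i * X 0 ^ (e - i) : P r k)) '' (Set.Iic e) ∪
    Set.range fun i : Fin r => (X i.succ.succ : P r k)

theorem GG_finite (e r : ℕ) (k : Type) [Field k] : (GG e r k).Finite :=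
  ((Set.finite_Iic e).image _).union (Set.finite_range _)

theorem two_mem (e r : ℕ) (k : Type) [Field k] (c : ℕ) :
    ∀ a b : ℕ, a + b = e * c → (X 0 ^ a * X 1 ^ b : P r k) ∈ Algebra.adjoin k (GG e r k) := by
  induction c with
  | zero =>
    intro a b h
    have ha : a = 0 := by omega
    have hb : b = 0 := by omega
    rw [ha, hb, pow_zero, pow_zero, mul_one]
    exact one_mem _
  | succ c ih =>
    intro a b h
    rw [Nat.mul_succ] at h
    obtain ⟨i, hie, hib, hia⟩ : ∃ i, i ≤ e ∧ i ≤ b ∧ e - i ≤ a := by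
      rcases le_total b e with hb | hb
      · exact ⟨b, hb, le_rfl, by omega⟩
      · exact ⟨e, le_rfl, hb, by omega⟩
    have h1 : (X 0 ^ a * X 1 ^ b : P r k) =
        (X 1 ^ i * X 0 ^ (e - i)) * (X 0 ^ (a - (e - i)) * X 1 ^ (b - i)) := by
      have ea : a = (e - i) + (a - (e - i)) := by omega
      have eb : b = i + (b - i) := by omega
      calc (X 0 ^ a * X 1 ^ b : P r k) =
          X 0 ^ ((e - i) + (a - (e - i))) * X 1 ^ (i + (b - i)) := by rw [← ea, ← eb]
        _ = _ := by rw [pow_add, pow_add]; ring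
    rw [h1]
    refine mul_mem (Algebra.subset_adjoin (Or.inl ⟨i, hie, rfl⟩)) (ih _ _ ?_)
    omega

theorem mono_mem (e r : ℕ) (k : Type) [Field k] (m : Fin (r + 2) →₀ ℕ)
    (hm : e ∣ m 0 + m 1) : (monomial m 1 : P r k) ∈ Algebra.adjoin k (GG e r k) := by
  obtain ⟨c, hc⟩ := hm
  rw [MvPolynomial.monomial_eq, C_1, one_mul, Finsupp.prod_fintype _ _ (fun i => pow_zero _),
    Fin.prod_univ_succ, Fin.prod_univ_succ, ← mul_assoc]
  refine mul_mem ?_ (Subalgebra.prod_mem _ fun i _ => Subalgebra.pow_mem _ ?_ _)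
  · exact two_mem e r k c _ _ hc
  · exact Algebra.subset_adjoin (Or.inr ⟨i, rfl⟩)

theorem FI_S1 (_h : S_S0) : S_S1 := by
  intro p r k _ hp
  have he : 0 < p ^ 2 - 1 := by
    have := hp.two_le
    have h2 : 2 ^ 2 ≤ p ^ 2 := Nat.pow_le_pow_left this 2
    omega
  rw [← Subalgebra.fg_iff_finiteType, Subalgebra.fg_def]
  refine ⟨GG (p ^ 2 - 1) r k, GG_finite _ r k, le_antisymm ?_ ?_⟩
  · rw [Algebra.adjoin_le_iff]
    rintro f (⟨i, hi, rfl⟩ | ⟨i, rfl⟩)
    · have h1 := pow_mul_mem p r k i (p ^ 2 - 1 - i) 1 (by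
        have : p ^ 2 - 1 - i + i = p ^ 2 - 1 := Nat.sub_add_cancel hi
        rw [this])
      rw [C_1, one_mul] at h1
      exact h1
    · exact z_mem p r k i
  · unfold S
    rw [Algebra.adjoin_le_iff]
    rintro f ⟨m, hm, rfl⟩
    exact mono_mem (p ^ 2 - 1) r k m hm

end Pool.Agent.Y758.FI
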