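import Pool.Agent.Y758.FI.Stm
import Pool.Agent.H503R3.FI.TaskC2

/-! Job FI-S2: the local ring `T p r k` is Frobenius split. -/

set_option autoImplicit false

open MvPolynomial

namespace Pool.Agent.Y758.FI

open H503R3.FI (FSplit)

namespace S2

/-- The field `k` as a module over itself through Frobenius. -/
def Fk (_p : ℕ) (k : Type) : Type := k

noncomputable instance (p : ℕ) (k : Type) [Field k] : AddCommGroup (Fk p k) :=
  inferInstanceAs (AddCommGroup k)

noncomputable instance (p : ℕ) (k : Type) [Field k] [Fact p.Prime] [CharP k p] :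
    Module k (Fk p k) :=
  Module.compHom k (frobenius k p)

/-- The Frobenius, as a linear map. -/
noncomputable def fr (p : ℕ) (k : Type) [Field k] [Fact p.Prime] [CharP k p] :
    k →ₗ[k] Fk p k where
  toFun c := (show Fk p k from c ^ p)
  map_add' a b := by
    have : (a + b) ^ p = a ^ p + b ^ p := add_pow_char a b p
    exact this
  map_smul' c a := by
    have : (c * a) ^ p = c ^ p * a ^ p := by ring
    exact this

theorem exists_kappa (p : ℕ) (k : Type) [Field k] [Fact p.Prime] [CharP k p] :
    ∃ κ : k → k, (∀ a b, κ (a + b) = κ a + κ b) ∧ (∀ c a, κ (c ^ p * a) = c * κ a) ∧ κ 1 = 1 := by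
  have hp : p.Prime := Fact.out
  have hker : LinearMap.ker (fr p k) = ⊥ := by
    rw [LinearMap.ker_eq_bot']
    intro m hm
    have : m ^ p = 0 := hm
    exact (pow_eq_zero_iff hp.ne_zero).1 this
  obtain ⟨g, hg⟩ := LinearMap.exists_leftInverse_of_injective (fr p k) hker
  refine ⟨fun a => g (show Fk p k from a), fun a b => ?_, fun c a => ?_, ?_⟩
  · exact map_add g (show Fk p k from a) (show Fk p k from b)
  · have := map_smul g c (show Fk p k from a)
    rw [smul_eq_mul] at this
    exact this
  · have h1 := LinearMap.congr_fun hg (1 : k)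
    have h2 : fr p k 1 = (show Fk p k from (1 : k)) := by
      change ((1 : k) ^ p) = 1
      exact one_pow p
    rw [LinearMap.comp_apply, h2] at h1
    exact h1

/-- Dividing an exponent vector by `p`. -/
noncomputable def dv (p : ℕ) {n : ℕ} (m : Fin n →₀ ℕ) : Fin n →₀ ℕ :=
  m.mapRange (· / p) (Nat.zero_div p)

theorem dv_smul {p : ℕ} (hp : 0 < p) {n : ℕ} (m : Fin n →₀ ℕ) : dv p (p • m) = m := by
  ext i
  simp only [dv, Finsupp.mapRange_apply, Finsupp.smul_apply, smul_eq_mul]
  exact Nat.mul_div_cancel_left _ hp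

/-- The splitting. -/
noncomputable def phi (p : ℕ) {n : ℕ} (k : Type) [Field k] (κ : k → k)
    (P : MvPolynomial (Fin n) k) : MvPolynomial (Fin n) k :=
  ∑ m ∈ P.support.image (dv p), monomial m (κ (coeff (p • m) P))

theorem coeff_phi {p : ℕ} (hp : 0 < p) {n : ℕ} (k : Type) [Field k] (κ : k → k) (h0 : κ 0 = 0)
    (P : MvPolynomial (Fin n) k) (m : Fin n →₀ ℕ) :
    coeff m (phi p k κ P) = κ (coeff (p • m) P) := by
  classical
  rw [phi, coeff_sum]
  simp only [coeff_monomial]
  rw [Finset.sum_ite_eq']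
  split_ifs with h
  · rfl
  · have : coeff (p • m) P = 0 := by
      by_contra hne
      apply h
      rw [Finset.mem_image]
      exact ⟨p • m, mem_support_iff.2 hne, dv_smul hp m⟩
    rw [this, h0]

theorem smul_le {p : ℕ} (hp : 0 < p) {n : ℕ} (u m : Fin n →₀ ℕ) : p • u ≤ p • m ↔ u ≤ m := by
  constructor
  · intro h i
    have := h i
    simp only [Finsupp.smul_apply, smul_eq_mul] at this
    exact Nat.le_of_mul_le_mul_left this hp
  · intro h i
    have := h i
    simp only [Finsupp.smul_apply, smul_eq_mul]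
    exact Nat.mul_le_mul_left p this

theorem smul_sub' (p : ℕ) {n : ℕ} (u m : Fin n →₀ ℕ) : p • m - p • u = p • (m - u) := by
  ext i
  simp only [Finsupp.tsub_apply, Finsupp.smul_apply, smul_eq_mul]
  rw [Nat.mul_sub]

theorem phi_split {p : ℕ} {n : ℕ} (k : Type) [Field k] [Fact p.Prime] [CharP k p] (κ : k → k)
    (hadd : ∀ a b, κ (a + b) = κ a + κ b) (hsm : ∀ c a, κ (c ^ p * a) = c * κ a)
    (hone : κ 1 = 1) :
    FSplit p (MvPolynomial (Fin n) k) (phi p k κ) := by
  have hpp : p.Prime := Fact.out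
  have hp : 0 < p := hpp.pos
  have h0 : κ 0 = 0 := by
    have := hadd 0 0
    rw [add_zero] at this
    exact left_eq_add.1 this
  refine ⟨?_, ?_, ?_⟩
  · intro a b
    ext m
    rw [coeff_add, coeff_phi hp k κ h0, coeff_phi hp k κ h0, coeff_phi hp k κ h0, coeff_add,
      hadd]
  · intro r a
    have key : ∀ (r a : MvPolynomial (Fin n) k), phi p k κ (r ^ p * a) = r * phi p k κ a := by
      intro r a
      induction r using MvPolynomial.induction_on' with
      | monomial u c =>
        ext m
        rw [coeff_phi hp k κ h0, monomial_pow, coeff_monomial_mul', coeff_monomial_mul']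
        simp only [smul_le hp]
        split_ifs with h
        · rw [smul_sub', hsm, coeff_phi hp k κ h0]
        · exact h0
      | add P Q hP hQ =>
        have : (P + Q) ^ p = P ^ p + Q ^ p := add_pow_char P Q p
        rw [this, add_mul, add_mul, ← hP, ← hQ]
        ext m
        rw [coeff_add, coeff_phi hp k κ h0, coeff_phi hp k κ h0, coeff_phi hp k κ h0, coeff_add,
          hadd]
    exact key r a
  · ext m
    rw [coeff_phi hp k κ h0]
    classical
    rw [coeff_one, coeff_one]
    by_cases hm : m = 0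
    · subst hm
      simp [hone]
    · have h2 : ¬ (0 = p • m) := by
        intro h
        apply hm
        ext i
        have := DFunLike.congr_fun h i
        simp only [Finsupp.coe_zero, Pi.zero_apply, Finsupp.smul_apply, smul_eq_mul] at this ⊢
        rcases Nat.mul_eq_zero.1 this.symm with h1 | h1
        · omega
        · exact h1
      rw [if_neg h2, if_neg (fun h => hm h.symm), h0]

theorem dvd_of_mul {p : ℕ} (hp : 0 < p) {a : ℕ} (h : (p ^ 2 - 1) ∣ p * a) :
    (p ^ 2 - 1) ∣ a := by
  have hcop : Nat.Coprime (p ^ 2 - 1) p := by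
    have h1 : p ^ 2 - 1 + 1 = p ^ 2 := Nat.sub_add_cancel (Nat.one_le_pow 2 p hp)
    have h2 : Nat.Coprime (p ^ 2 - 1) (p ^ 2) := by
      have h3 : Nat.Coprime (p ^ 2 - 1) (p ^ 2 - 1 + 1) := by
        simp
      rwa [h1] at h3
    exact Nat.Coprime.coprime_dvd_right (dvd_pow_self p two_ne_zero) h2
  exact hcop.dvd_of_dvd_mul_left h

theorem phi_mem (hS : S_S0) {p r : ℕ} (hp : 0 < p) (k : Type) [Field k] (κ : k → k)
    (h0 : κ 0 = 0) (f : P r k) (hf : f ∈ S p r k) : phi p k κ f ∈ S p r k := by
  rw [hS] at hf ⊢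
  intro m hm
  rw [mem_support_iff, coeff_phi hp k κ h0] at hm
  have hne : coeff (p • m) f ≠ 0 := by
    intro h
    rw [h, h0] at hm
    exact hm rfl
  have h1 := hf (p • m) (mem_support_iff.2 hne)
  simp only [Finsupp.smul_apply, smul_eq_mul] at h1
  rw [← Nat.mul_add] at h1
  exact dvd_of_mul hp h1

end S2

theorem FI_S2 (h : S_S0) : S_S2 := by
  intro p r k _ _ hpp
  have : Fact p.Prime := ⟨hpp⟩
  have hp : 0 < p := hpp.pos
  obtain ⟨κ, hadd, hsm, hone⟩ := S2.exists_kappa p k
  have h0 : κ 0 = 0 := by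
    have := hadd 0 0
    rw [add_zero] at this
    exact left_eq_add.1 this
  have hφ := S2.phi_split (n := r + 2) k κ hadd hsm hone
  have hmem := S2.phi_mem h (r := r) hp k κ h0
  let ψ : S p r k → S p r k := fun f => ⟨S2.phi p k κ f.1, hmem f.1 f.2⟩
  have hψ : FSplit p (S p r k) ψ := by
    refine ⟨fun a b => ?_, fun a b => ?_, ?_⟩
    · apply Subtype.ext
      exact hφ.add a.1 b.1
    · apply Subtype.ext
      exact hφ.smul a.1 b.1
    · apply Subtype.ext
      exact hφ.one
  obtain ⟨φ', hφ', -⟩ := H503R3.FI.TaskC2.taskC2 p hp (S p r k) ψ (orig p r k).primeCompl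
    (T p r k) hψ
  exact ⟨φ', hφ'⟩

end Pool.Agent.Y758.FI
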