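import Pool.Agent.Y758.FI.Stm

/-! Project FI (helper758), part S3: the dimension of the local ring `T`. -/

open IsLocalRing MvPolynomial

namespace Pool.Agent.Y758.FI

namespace S3

variable (p r : ℕ) (k : Type) [Field k]

theorem X_pow_mem (i : Fin (r + 2)) : (X i ^ (p ^ 2 - 1) : P r k) ∈ S p r k := by
  rw [X_pow_eq_monomial]
  apply monomial_mem
  simp only [Finsupp.single_apply]
  split_ifs <;> simp

/-- The ring map which kills the variables with index `≥ r + 2 - j`. -/
noncomputable def kil (j : ℕ) : P r k →+* P r k :=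
  (aeval (fun i : Fin (r + 2) => if i.val + j < r + 2 then (X i : P r k) else 0) :
    P r k →ₐ[k] P r k).toRingHom

theorem kil_X (j : ℕ) (i : Fin (r + 2)) :
    kil r k j (X i) = if i.val + j < r + 2 then (X i : P r k) else 0 := by
  simp [kil]

theorem kil_C (j : ℕ) (c : k) : kil r k j (C c) = C c := by
  simp [kil, algebraMap_eq]

/-- The primes of the chain. -/
noncomputable def Q (j : ℕ) : Ideal (S p r k) :=
  RingHom.ker ((kil r k j).comp (S p r k).val.toRingHom)

instance Q_prime (j : ℕ) : (Q p r k j).IsPrime := RingHom.ker_isPrime _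

theorem mem_Q (j : ℕ) (f : S p r k) : f ∈ Q p r k j ↔ kil r k j f.1 = 0 := Iff.rfl

theorem kil_kil (j : ℕ) : (kil r k (j + 1)).comp (kil r k j) = kil r k (j + 1) := by
  apply MvPolynomial.ringHom_ext
  · intro c
    rw [RingHom.comp_apply, kil_C, kil_C]
  · intro i
    rw [RingHom.comp_apply, kil_X, kil_X]
    split_ifs with h1 h2 h2
    · rw [kil_X, if_pos h2]
    · rw [kil_X, if_neg h2]
    · omega
    · rw [map_zero]

theorem coeff_kil (j : ℕ) :
    (constantCoeff : P r k →+* k).comp (kil r k j) = constantCoeff := by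
  apply MvPolynomial.ringHom_ext
  · intro c
    rw [RingHom.comp_apply, kil_C]
  · intro i
    rw [RingHom.comp_apply, kil_X]
    split_ifs <;> simp

theorem Q_lt (he : p ^ 2 - 1 ≠ 0) (j : ℕ) (hj : j < r + 2) : Q p r k j < Q p r k (j + 1) := by
  refine lt_of_le_of_ne ?_ ?_
  · intro f hf
    rw [mem_Q] at hf ⊢
    rw [← kil_kil, RingHom.comp_apply, hf, map_zero]
  · intro heq
    have h1 : (⟨X ⟨r + 1 - j, by omega⟩ ^ (p ^ 2 - 1), X_pow_mem p r k _⟩ : S p r k) ∈
        Q p r k (j + 1) → (⟨X ⟨r + 1 - j, by omega⟩ ^ (p ^ 2 - 1), X_pow_mem p r k _⟩ : S p r k) ∈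
        Q p r k j := by
      rw [heq]; exact id
    rw [mem_Q, mem_Q] at h1
    simp only [map_pow, kil_X] at h1
    rw [if_neg (by omega), if_pos (by omega), zero_pow he] at h1
    exact pow_ne_zero _ (X_ne_zero _) (h1 rfl)

theorem Q_le (j : ℕ) : Q p r k j ≤ orig p r k := by
  intro f hf
  rw [mem_Q] at hf
  show constantCoeff f.1 = 0
  rw [← coeff_kil r k j, RingHom.comp_apply, hf, map_zero]

theorem le_height (he : p ^ 2 - 1 ≠ 0) (j : ℕ) (hj : j ≤ r + 2) : (j : ℕ∞) ≤ (Q p r k j).height := by
  induction j with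
  | zero => simp
  | succ j ih =>
    have h1 := Ideal.height_add_one_le_of_lt_of_isPrime (Q_lt p r k he j (by omega))
    refine le_trans ?_ h1
    push_cast
    gcongr
    exact ih (by omega)

theorem low (he : p ^ 2 - 1 ≠ 0) : ((r + 2 : ℕ) : ℕ∞) ≤ (orig p r k).height :=
  (le_height p r k he (r + 2) le_rfl).trans (Ideal.height_mono (Q_le p r k _))

theorem isInt (he : p ^ 2 - 1 ≠ 0) : Algebra.IsIntegral (S p r k) (P r k) := by
  constructor
  intro f
  induction f using MvPolynomial.induction_on with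
  | C a => exact isIntegral_algebraMap (x := algebraMap k (S p r k) a)
  | add f g hf hg => exact hf.add hg
  | mul_X f i hf =>
    refine hf.mul ?_
    refine IsIntegral.of_pow (Nat.pos_of_ne_zero he) ?_
    exact isIntegral_algebraMap (x := (⟨X i ^ (p ^ 2 - 1), X_pow_mem p r k i⟩ : S p r k))

theorem up (he : p ^ 2 - 1 ≠ 0) (hn : IsNoetherianRing (S p r k)) :
    (orig p r k).height ≤ ((r + 2 : ℕ) : ℕ∞) := by
  have hI := isInt p r k he
  let g : Fin (r + 2) → S p r k := fun i => ⟨X i ^ (p ^ 2 - 1), X_pow_mem p r k i⟩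
  have h1 : orig p r k ∈ (Ideal.span (Set.range g)).minimalPrimes := by
    refine ⟨⟨inferInstance, ?_⟩, ?_⟩
    · rw [Ideal.span_le]
      rintro _ ⟨i, rfl⟩
      show constantCoeff ((g i).1 : P r k) = 0
      simp only [g, map_pow, constantCoeff_X]
      exact zero_pow he
    · rintro Q0 ⟨hQ0, hQ1⟩ - f hf
      obtain ⟨Q', -, hQ'1, hQ'2⟩ := Ideal.exists_ideal_over_prime_of_isIntegral
        (R := S p r k) (S := P r k) Q0 (⊥ : Ideal (P r k)) (by
          intro a ha
          rw [Ideal.mem_comap, Ideal.mem_bot] at ha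
          have : a = 0 := Subtype.ext ha
          rw [this]; exact Q0.zero_mem)
      have hX : ∀ i : Fin (r + 2), (X i : P r k) ∈ Q' := by
        intro i
        refine hQ'1.mem_of_pow_mem (p ^ 2 - 1) ?_
        have h2 : g i ∈ Q0 := hQ1 (Ideal.subset_span ⟨i, rfl⟩)
        rw [← hQ'2, Ideal.mem_comap] at h2
        exact h2
      have h3 : Ideal.Quotient.mk Q' = ((Ideal.Quotient.mk Q').comp (C : k →+* P r k)).comp
          (constantCoeff : P r k →+* k) := by
        apply MvPolynomial.ringHom_ext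
        · intro c
          simp
        · intro i
          rw [RingHom.comp_apply, constantCoeff_X, map_zero]
          exact Ideal.Quotient.eq_zero_iff_mem.mpr (hX i)
      have h4 : Ideal.Quotient.mk Q' f.1 = 0 := by
        have h5 := congrArg (fun φ : P r k →+* P r k ⧸ Q' => φ f.1) h3
        simp only [RingHom.comp_apply] at h5
        have h6 : constantCoeff (f.1 : P r k) = 0 := hf
        rw [h5, h6, map_zero, map_zero]
      rw [← hQ'2, Ideal.mem_comap]
      exact Ideal.Quotient.eq_zero_iff_mem.mp h4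
  have h2 := Ideal.height_le_card_of_mem_minimalPrimes_span (Set.finite_range g) h1
  refine h2.trans ?_
  have h3 : (Set.range g).ncard ≤ r + 2 := by
    rw [← Set.image_univ]
    refine (Set.ncard_image_le (Set.finite_univ)).trans ?_
    rw [Set.ncard_univ, Nat.card_fin]
  exact_mod_cast h3

end S3

theorem FI_S3 : S_S3 := by
  intro p r k _ hp hn
  have he : p ^ 2 - 1 ≠ 0 := by
    have := hp.two_le
    have h2 : 2 ^ 2 ≤ p ^ 2 := Nat.pow_le_pow_left this 2
    omega
  rw [IsLocalization.AtPrime.ringKrullDim_eq_height (orig p r k) (T p r k),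
    le_antisymm (S3.up p r k he hn) (S3.low p r k he)]
  rfl

end Pool.Agent.Y758.FI
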