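import Pool.Agent.Y758.FI.Stm
import Pool.Agent.H503R3.FI.TaskH

/-! Project FI, task S4 (helper79): the first Cech cohomology of `T` vanishes. -/

set_option autoImplicit false

open IsLocalRing MvPolynomial

namespace Pool.Agent.Y758.FI

open H503R3.FI (Cochain)

/-- prime elements stay prime in the localisation at a prime ideal containing them -/
theorem S4_loc {A T : Type} [CommRing A] [IsDomain A] [CommRing T] [Algebra A T] (q : Ideal A)
    [q.IsPrime] [IsLocalization.AtPrime T q] {z : A} (hz : Prime z) (hzq : z ∈ q) :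
    (∀ a : A, algebraMap A T z ∣ algebraMap A T a → z ∣ a) ∧ Prime (algebraMap A T z) := by
  have inj : Function.Injective (algebraMap A T) :=
    IsLocalization.injective _ (Ideal.primeCompl_le_nonZeroDivisors q)
  have hs : ∀ s : A, s ∉ q → ¬ z ∣ s := fun s hs h => hs (Ideal.mem_of_dvd _ h hzq)
  have hmk : ∀ w : T, ∃ (s : A), s ∉ q ∧ ∃ a : A, w * algebraMap A T s = algebraMap A T a := by
    intro w
    obtain ⟨⟨a, s⟩, h⟩ := IsLocalization.surj q.primeCompl w
    exact ⟨s, s.2, a, h⟩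
  have hun : ∀ s : A, s ∉ q → IsUnit (algebraMap A T s) := fun s hs =>
    IsLocalization.map_units T (⟨s, hs⟩ : q.primeCompl)
  have hdiv : ∀ a : A, algebraMap A T z ∣ algebraMap A T a → z ∣ a := by
    rintro a ⟨w, hw⟩
    obtain ⟨s, hs1, b, hb⟩ := hmk w
    have h1 : algebraMap A T (a * s) = algebraMap A T (z * b) := by
      rw [map_mul, map_mul, hw, mul_assoc, hb]
    have h2 := inj h1
    have h3 : z ∣ a * s := ⟨b, h2⟩
    exact (hz.dvd_or_dvd h3).resolve_right (hs s hs1)
  refine ⟨hdiv, ?_, ?_, ?_⟩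
  · intro h
    exact hz.ne_zero (inj (by rw [map_zero]; exact h))
  · intro h
    have h1 := hdiv 1 (by rw [map_one]; exact h.dvd)
    exact hz.not_isUnit (isUnit_of_dvd_one h1)
  · intro y w h
    obtain ⟨s, hs1, b, hb⟩ := hmk y
    obtain ⟨t, ht1, c, hc⟩ := hmk w
    have h1 : algebraMap A T z ∣ algebraMap A T (b * c) := by
      rw [map_mul, ← hb, ← hc]
      have : y * algebraMap A T s * (w * algebraMap A T t) =
        (y * w) * (algebraMap A T s * algebraMap A T t) := by ring
      rw [this]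
      exact Dvd.dvd.mul_right h _
    have h2 := hz.dvd_or_dvd (hdiv _ h1)
    have lift : ∀ (w : T) (u e : A), u ∉ q → w * algebraMap A T u =
        algebraMap A T e → z ∣ e → algebraMap A T z ∣ w := by
      rintro w u e hu hw ⟨f, rfl⟩
      have h3 : algebraMap A T z ∣ w * algebraMap A T u := by
        rw [hw, map_mul]; exact Dvd.intro _ rfl
      exact (hun u hu).dvd_mul_right.1 h3
    rcases h2 with h2 | h2
    · exact Or.inl (lift y s b hs1 hb h2)
    · exact Or.inr (lift w t c ht1 hc h2)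

section

variable (p r : ℕ) (k : Type) [Field k]

/-- division by `z i` stays in `S` -/
theorem S4_dvd (h0 : S_S0) (i : Fin r) (f : S p r k) (h : (X i.succ.succ : P r k) ∣ (f : P r k)) :
    (⟨X i.succ.succ, z_mem p r k i⟩ : S p r k) ∣ f := by
  obtain ⟨g, hg⟩ := h
  have hgS : g ∈ S p r k := by
    rw [h0]
    intro m hm
    have h1 := (h0 p r k (f : P r k)).1 f.2 (Finsupp.single i.succ.succ 1 + m) (by
      rw [hg, MvPolynomial.support_X_mul, Finset.mem_map]
      exact ⟨m, hm, rfl⟩)
    have e0 : (0 : Fin (r + 2)) ≠ i.succ.succ := (Fin.succ_ne_zero _).symm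
    have e1 : (1 : Fin (r + 2)) ≠ i.succ.succ := by
      intro h
      have := congrArg Fin.val h
      simp at this
    simpa [Finsupp.single_apply, e0.symm, e1.symm] using h1
  exact ⟨⟨g, hgS⟩, Subtype.ext hg⟩

/-- the variables `z i` are prime in `S` -/
theorem S4_prime (h0 : S_S0) (i : Fin r) :
    Prime (⟨X i.succ.succ, z_mem p r k i⟩ : S p r k) := by
  have hX : Prime (X i.succ.succ : P r k) := X_prime
  refine ⟨?_, ?_, ?_⟩
  · intro h
    exact hX.ne_zero (congrArg Subtype.val h)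
  · intro h
    exact hX.not_isUnit (h.map (S p r k).val)
  · intro a b hab
    obtain ⟨c, hc⟩ := hab
    have h1 : (X i.succ.succ : P r k) ∣ (a : P r k) * (b : P r k) :=
      ⟨(c : P r k), congrArg Subtype.val hc⟩
    rcases hX.dvd_or_dvd h1 with h | h
    · exact Or.inl (S4_dvd p r k h0 i a h)
    · exact Or.inr (S4_dvd p r k h0 i b h)

end

theorem FI_S4 (h0 : S_S0) : S_S4 := by
  intro p r k _ hp hr n x hx c hc
  have hdom : IsDomain (T p r k) :=
    IsLocalization.isDomain_localization (Ideal.primeCompl_le_nonZeroDivisors _)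
  set i : Fin r := ⟨0, hr⟩ with hi
  have hzo : (⟨X i.succ.succ, z_mem p r k i⟩ : S p r k) ∈ orig p r k := by
    rw [orig, RingHom.mem_ker]
    simp
  obtain ⟨h1, h2⟩ := S4_loc (T := T p r k) (orig p r k) (S4_prime p r k h0 i) hzo
  have hp2 : 2 ≤ p := hp.two_le
  have he : p ^ 2 - 1 ≠ 0 := by
    have : 2 ^ 2 ≤ p ^ 2 := Nat.pow_le_pow_left hp2 2
    omega
  have hx0 : x0 p r k = algebraMap (S p r k) (T p r k)
      ⟨C 1 * (X 1 ^ (p ^ 2 - 1) * X 0 ^ 0), pow_mul_mem p r k (p ^ 2 - 1) 0 1 (by simp)⟩ := by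
    rw [x0, uv, dif_pos (by simp)]
  have h3 : ¬ zz p r k i ∣ x0 p r k := by
    intro h
    rw [hx0] at h
    obtain ⟨g, hg⟩ := h1 _ h
    have h4 : (X i.succ.succ : P r k) ∣ C 1 * (X 1 ^ (p ^ 2 - 1) * X 0 ^ 0) :=
      ⟨(g : P r k), congrArg Subtype.val hg⟩
    rw [C_1, one_mul, pow_zero, mul_one] at h4
    have hX : Prime (X i.succ.succ : P r k) := X_prime
    have h5 := hX.dvd_of_dvd_pow h4
    rw [MvPolynomial.X_dvd_X] at h5
    have := congrArg Fin.val h5
    simp at this
  have hmz : zz p r k i ∈ maximalIdeal (T p r k) := by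
    unfold zz
    rw [IsLocalization.AtPrime.to_map_mem_maximal_iff (T p r k) (orig p r k)]
    exact hzo
  have hmx : x0 p r k ∈ maximalIdeal (T p r k) := by
    rw [hx0, IsLocalization.AtPrime.to_map_mem_maximal_iff (T p r k) (orig p r k), orig,
      RingHom.mem_ker]
    simp [he]
  exact H503R3.FI.TaskH.gen (zz p r k i) (x0 p r k) h2 h3 x (hx ▸ hmz) (hx ▸ hmx) c hc

end Pool.Agent.Y758.FI
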