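import Pool.Agent.Y758.FI.Stm

/-! Project FI: the radical of the ideal of `x0`, `x1` and the `z i` (written by helper864). -/

set_option autoImplicit false

open IsLocalRing MvPolynomial

namespace Pool.Agent.Y758.FI

section S5

variable {p r : ℕ} {k : Type} [Field k]

/-- monomials as elements of `S` -/
noncomputable def mn (m : Fin (r + 2) →₀ ℕ) (c : k) (h : (p ^ 2 - 1) ∣ m 0 + m 1) : S p r k :=
  ⟨monomial m c, monomial_mem p r k m c h⟩

lemma dvd_aux (m : Fin (r + 2) →₀ ℕ) (i : Fin (r + 2)) (j : Fin (r + 2)) :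
    (p ^ 2 - 1) ∣ ((p ^ 2 - 1) • m - Finsupp.single i (p ^ 2 - 1) : Fin (r + 2) →₀ ℕ) j := by
  rw [Finsupp.tsub_apply, Finsupp.smul_apply, smul_eq_mul, Finsupp.single_apply]
  refine Nat.dvd_sub (Dvd.intro _ rfl) ?_
  split_ifs
  · exact dvd_rfl
  · exact dvd_zero _

lemma dvd_single (i j : Fin (r + 2)) :
    (p ^ 2 - 1) ∣ (Finsupp.single i (p ^ 2 - 1) : Fin (r + 2) →₀ ℕ) j := by
  rw [Finsupp.single_apply]
  split_ifs
  · exact dvd_rfl
  · exact dvd_zero _

/-- monomials in radical ideals -/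
lemma mn_mem (J : Ideal (S p r k)) (hJ : J.IsRadical)
    (hX : ∀ i : Fin (r + 2), mn (Finsupp.single i (p ^ 2 - 1)) 1
      (dvd_add (dvd_single i 0) (dvd_single i 1)) ∈ J)
    (m : Fin (r + 2) →₀ ℕ) (hm : m ≠ 0) (h : (p ^ 2 - 1) ∣ m 0 + m 1) : mn m 1 h ∈ J := by
  obtain ⟨i, hi⟩ := Finsupp.ne_iff.1 hm
  apply hJ
  refine ⟨p ^ 2 - 1, ?_⟩
  have h4 : (mn m 1 h : S p r k) ^ (p ^ 2 - 1) = mn (Finsupp.single i (p ^ 2 - 1)) 1
      (dvd_add (dvd_single i 0) (dvd_single i 1)) *
      mn ((p ^ 2 - 1) • m - Finsupp.single i (p ^ 2 - 1)) 1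
        (dvd_add (dvd_aux m i 0) (dvd_aux m i 1)) := by
    apply Subtype.ext
    change (monomial m (1 : k)) ^ (p ^ 2 - 1) = monomial _ 1 * monomial _ 1
    rw [monomial_pow, monomial_mul, one_pow, one_mul, add_tsub_cancel_of_le]
    rw [Finsupp.single_le_iff, Finsupp.smul_apply, smul_eq_mul]
    exact Nat.le_mul_of_pos_right _ (Nat.pos_of_ne_zero hi)
  rw [h4]
  exact J.mul_mem_right _ (hX i)

lemma uv_eq (a b : ℕ) (c : k) (h : (p ^ 2 - 1) ∣ b + a) :
    uv p r k c a b = algebraMap (S p r k) (T p r k)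
      ⟨C c * (X 1 ^ a * X 0 ^ b), pow_mul_mem p r k a b c h⟩ := by
  unfold uv
  rw [dif_pos h]

lemma uv_max (a b : ℕ) (c : k) (hab : a ≠ 0 ∨ b ≠ 0) :
    uv p r k c a b ∈ maximalIdeal (T p r k) := by
  unfold uv
  split_ifs with h
  · rw [IsLocalization.AtPrime.to_map_mem_maximal_iff (T p r k) (orig p r k)]
    change constantCoeff (C c * (X 1 ^ a * X 0 ^ b) : P r k) = 0
    rw [map_mul, map_mul, map_pow, map_pow, constantCoeff_X, constantCoeff_X]
    rcases hab with h | h
    · rw [zero_pow h, zero_mul, mul_zero]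
    · rw [zero_pow h, mul_zero, mul_zero]
  · exact Ideal.zero_mem _

lemma coe_eq (a b : ℕ) (c : k) :
    (C c * (X 1 ^ a * X 0 ^ b) : P r k) = monomial (Finsupp.single 1 a + Finsupp.single 0 b) c := by
  rw [X_pow_eq_monomial, X_pow_eq_monomial, monomial_mul, C_mul_monomial]
  simp

end S5

theorem FI_S5 : S_S5 := by
  intro p r k _ s t hp ht
  have hp2 := hp.two_le
  obtain ⟨e, he⟩ : ∃ e, e = p ^ 2 - 1 := ⟨_, rfl⟩
  have he1 : p ≤ e := by
    have : p * 2 ≤ p ^ 2 := by
      rw [pow_two]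
      exact Nat.mul_le_mul_left p hp2
    omega
  have he0 : e ≠ 0 := by omega
  have h01 : (0 : Fin (r + 2)) ≠ 1 := by
    intro h0
    have := congrArg Fin.val h0
    simp at this
  apply le_antisymm
  · rw [(maximalIdeal.isMaximal (T p r k)).isPrime.radical_le_iff, Ideal.span_le]
    rintro z ((rfl | rfl) | ⟨i, rfl⟩)
    · exact uv_max _ _ _ (Or.inl (by omega))
    · exact Ideal.add_mem _ (uv_max _ _ _ (Or.inl hp.ne_zero)) (uv_max _ _ _ (Or.inr (by omega)))
    · unfold zz
      rw [SetLike.mem_coe,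
        IsLocalization.AtPrime.to_map_mem_maximal_iff (T p r k) (orig p r k)]
      change constantCoeff (X i.succ.succ : P r k) = 0
      rw [constantCoeff_X]
  · obtain ⟨J, hJ⟩ : ∃ J, J = (Ideal.span ({x0 p r k, x1 p r k s t} ∪
      Set.range (zz p r k))).radical := ⟨_, rfl⟩
    rw [← hJ, ← Localization.AtPrime.map_eq_maximalIdeal, Ideal.map_le_iff_le_comap]
    have hJr : J.IsRadical := by
      rw [hJ]
      exact Ideal.radical_isRadical _
    have hsub : Ideal.span ({x0 p r k, x1 p r k s t} ∪ Set.range (zz p r k)) ≤ J := by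
      rw [hJ]
      exact Ideal.le_radical
    obtain ⟨J', hJ'⟩ : ∃ J', J' = J.comap (algebraMap (S p r k) (T p r k)) := ⟨_, rfl⟩
    rw [← hJ']
    have hJr' : J'.IsRadical := by
      rw [hJ']
      exact hJr.comap _
    have hmem : ∀ a, a ∈ J' ↔ algebraMap (S p r k) (T p r k) a ∈ J := by
      intro a
      rw [hJ', Ideal.mem_comap]
    -- the powers of the variables
    have hU : (mn (Finsupp.single 1 (p ^ 2 - 1)) 1
        (dvd_add (dvd_single 1 0) (dvd_single 1 1)) : S p r k) ∈ J' := by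
      rw [hmem]
      have h1 : x0 p r k ∈ J := hsub (Ideal.subset_span (Or.inl (Or.inl rfl)))
      unfold x0 at h1
      rw [uv_eq (p ^ 2 - 1) 0 1 (by rw [zero_add])] at h1
      have h2 : (⟨C 1 * (X 1 ^ (p ^ 2 - 1) * X 0 ^ 0), pow_mul_mem p r k (p ^ 2 - 1) 0 1
          (by rw [zero_add])⟩ : S p r k) = mn (Finsupp.single 1 (p ^ 2 - 1)) 1
            (dvd_add (dvd_single 1 0) (dvd_single 1 1)) := by
        apply Subtype.ext
        change (C 1 * (X 1 ^ (p ^ 2 - 1) * X 0 ^ 0) : P r k) = monomial _ 1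
        rw [coe_eq, Finsupp.single_zero, add_zero]
      rwa [h2] at h1
    have hd1 : (p ^ 2 - 1) ∣ (p ^ 2 - 1 - p) + p := by
      rw [Nat.sub_add_cancel (by rw [← he]; exact he1)]
    have hd2 : (p ^ 2 - 1) ∣ (p ^ 2 - 1) + 0 := by
      rw [add_zero]
    have hM : (⟨C s * (X 1 ^ p * X 0 ^ (p ^ 2 - 1 - p)), pow_mul_mem p r k p (p ^ 2 - 1 - p) s
        hd1⟩ : S p r k) ∈ J' := by
      apply hJr'
      refine ⟨p ^ 2 - 1, ?_⟩
      have h3 : (p ^ 2 - 1) ∣ (p ^ 2 - 1 - p) * (p ^ 2 - 1) + (p - 1) * (p ^ 2 - 1) :=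
        dvd_add (Dvd.intro_left _ rfl) (Dvd.intro_left _ rfl)
      have h4 : (⟨C s * (X 1 ^ p * X 0 ^ (p ^ 2 - 1 - p)), pow_mul_mem p r k p (p ^ 2 - 1 - p) s
          hd1⟩ : S p r k) ^ (p ^ 2 - 1) = mn (Finsupp.single 1 (p ^ 2 - 1)) 1
            (dvd_add (dvd_single 1 0) (dvd_single 1 1)) *
          ⟨C (s ^ (p ^ 2 - 1)) * (X 1 ^ ((p - 1) * (p ^ 2 - 1)) *
            X 0 ^ ((p ^ 2 - 1 - p) * (p ^ 2 - 1))), pow_mul_mem p r k _ _ _ h3⟩ := by
        apply Subtype.ext
        change (C s * (X 1 ^ p * X 0 ^ (p ^ 2 - 1 - p)) : P r k) ^ (p ^ 2 - 1) =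
          monomial _ 1 * (C (s ^ (p ^ 2 - 1)) * (X 1 ^ ((p - 1) * (p ^ 2 - 1)) *
            X 0 ^ ((p ^ 2 - 1 - p) * (p ^ 2 - 1))))
        rw [← X_pow_eq_monomial, C_pow, mul_pow, mul_pow, ← pow_mul, ← pow_mul]
        have h5 : p * (p ^ 2 - 1) = (p ^ 2 - 1) + (p - 1) * (p ^ 2 - 1) := by
          obtain ⟨q, rfl⟩ : ∃ q, p = q + 1 := ⟨p - 1, by omega⟩
          rw [Nat.add_sub_cancel]
          ring
        rw [h5, pow_add]
        ring
      rw [h4]
      exact J'.mul_mem_right _ hU
    have hV : (mn (Finsupp.single 0 (p ^ 2 - 1)) 1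
        (dvd_add (dvd_single 0 0) (dvd_single 0 1)) : S p r k) ∈ J' := by
      have h1 : x1 p r k s t ∈ J := hsub (Ideal.subset_span (Or.inl (Or.inr rfl)))
      unfold x1 at h1
      rw [uv_eq p (p ^ 2 - 1 - p) s hd1, uv_eq 0 (p ^ 2 - 1) t hd2, ← map_add, ← hmem] at h1
      have h2 := J'.sub_mem h1 hM
      rw [add_sub_cancel_left] at h2
      have h3 : (mn (Finsupp.single 0 (p ^ 2 - 1)) 1
        (dvd_add (dvd_single 0 0) (dvd_single 0 1)) : S p r k) =
          algebraMap k (S p r k) t⁻¹ * ⟨C t * (X 1 ^ 0 * X 0 ^ (p ^ 2 - 1)),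
            pow_mul_mem p r k 0 (p ^ 2 - 1) t hd2⟩ := by
        apply Subtype.ext
        change (monomial _ 1 : P r k) = C t⁻¹ * (C t * (X 1 ^ 0 * X 0 ^ (p ^ 2 - 1)))
        rw [← X_pow_eq_monomial, ← mul_assoc, ← C_mul, inv_mul_cancel₀ ht, C_1, one_mul, pow_zero,
          one_mul]
      rw [h3]
      exact J'.mul_mem_left _ h2
    have hX : ∀ i : Fin (r + 2), (mn (Finsupp.single i (p ^ 2 - 1)) 1
        (dvd_add (dvd_single i 0) (dvd_single i 1)) : S p r k) ∈ J' := by
      intro i
      refine Fin.cases hV (fun i => Fin.cases hU (fun i => ?_) i) i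
      have h1 : zz p r k i ∈ J := hsub (Ideal.subset_span (Or.inr ⟨i, rfl⟩))
      unfold zz at h1
      rw [← hmem] at h1
      have h2 : (mn (Finsupp.single i.succ.succ (p ^ 2 - 1)) 1
        (dvd_add (dvd_single i.succ.succ 0) (dvd_single i.succ.succ 1)) : S p r k) =
          ⟨X i.succ.succ, z_mem p r k i⟩ ^ (p ^ 2 - 1) := by
        apply Subtype.ext
        change (monomial _ 1 : P r k) = X i.succ.succ ^ (p ^ 2 - 1)
        rw [X_pow_eq_monomial]
      rw [h2]
      exact J'.pow_mem_of_mem h1 _ (by omega)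
    -- all elements are constant modulo the ideal
    have hA : ∀ (f : P r k) (hf : f ∈ S p r k),
        (⟨f, hf⟩ - algebraMap k (S p r k) (constantCoeff f) : S p r k) ∈ J' := by
      intro f hf
      induction hf using Algebra.adjoin_induction with
      | mem f hf =>
        obtain ⟨m, hm, rfl⟩ := hf
        by_cases h0 : m = 0
        · subst h0
          have h1 : (⟨monomial 0 1, Algebra.subset_adjoin ⟨0, hm, rfl⟩⟩ -
              algebraMap k (S p r k) (constantCoeff (monomial 0 1 : P r k)) : S p r k) = 0 := by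
            apply Subtype.ext
            change (monomial 0 1 : P r k) - C (constantCoeff (monomial 0 1)) = 0
            rw [constantCoeff_monomial, if_pos rfl, sub_eq_zero]
            rfl
          rw [h1]
          exact J'.zero_mem
        · have h1 := mn_mem J' hJr' hX m h0 hm
          have h2 : (⟨monomial m 1, Algebra.subset_adjoin ⟨m, hm, rfl⟩⟩ -
              algebraMap k (S p r k) (constantCoeff (monomial m 1 : P r k)) : S p r k) =
                mn m 1 hm := by
            apply Subtype.ext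
            change (monomial m 1 : P r k) - C (constantCoeff (monomial m 1)) = monomial m 1
            rw [constantCoeff_monomial, if_neg h0, C_0, sub_zero]
          rw [h2]
          exact h1
      | algebraMap c =>
        have h1 : (⟨algebraMap k (P r k) c, Subalgebra.algebraMap_mem _ c⟩ -
            algebraMap k (S p r k) (constantCoeff (algebraMap k (P r k) c)) : S p r k) = 0 := by
          apply Subtype.ext
          change (C c : P r k) - C (constantCoeff (C c)) = 0
          rw [constantCoeff_C, sub_self]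
        rw [h1]
        exact J'.zero_mem
      | add f g hf hg ihf ihg =>
        have h1 := J'.add_mem ihf ihg
        have h2 : (⟨f + g, add_mem hf hg⟩ -
            algebraMap k (S p r k) (constantCoeff (f + g)) : S p r k) =
            (⟨f, hf⟩ - algebraMap k (S p r k) (constantCoeff f)) +
            (⟨g, hg⟩ - algebraMap k (S p r k) (constantCoeff g)) := by
          apply Subtype.ext
          change (f + g : P r k) - C (constantCoeff (f + g)) =
            (f - C (constantCoeff f)) + (g - C (constantCoeff g))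
          rw [map_add, C_add]
          ring
        rw [h2]
        exact h1
      | mul f g hf hg ihf ihg =>
        have h1 := J'.add_mem (J'.mul_mem_right ⟨g, hg⟩ ihf)
          (J'.mul_mem_left (algebraMap k (S p r k) (constantCoeff f)) ihg)
        have h2 : (⟨f * g, mul_mem hf hg⟩ -
            algebraMap k (S p r k) (constantCoeff (f * g)) : S p r k) =
            (⟨f, hf⟩ - algebraMap k (S p r k) (constantCoeff f)) * ⟨g, hg⟩ +
            algebraMap k (S p r k) (constantCoeff f) *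
              (⟨g, hg⟩ - algebraMap k (S p r k) (constantCoeff g)) := by
          apply Subtype.ext
          change (f * g : P r k) - C (constantCoeff (f * g)) =
            (f - C (constantCoeff f)) * g + C (constantCoeff f) * (g - C (constantCoeff g))
          rw [map_mul, C_mul]
          ring
        rw [h2]
        exact h1
    intro f hf
    have h1 := hA f.1 f.2
    have h2 : constantCoeff f.1 = 0 := hf
    rw [h2, map_zero, sub_zero] at h1
    exact h1

end Pool.Agent.Y758.FI
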