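import Pool.Agent.Y758.FI.Stm

/-! Project FI, part S6: `z i` is regular modulo the other parameters. -/

set_option autoImplicit false

open IsLocalRing MvPolynomial

namespace Pool.Agent.Y758.FI

/-- division by a variable commutes with the multiplication by monomials free of this variable -/
theorem s6_div_mul (r : ℕ) (k : Type) [Field k] (i : Fin (r + 2)) (c : P r k)
    (a : Fin (r + 2) →₀ ℕ) (b : k) (ha : a i = 0) :
    (c * monomial a b).divMonomial (Finsupp.single i 1) =
      c.divMonomial (Finsupp.single i 1) * monomial a b := by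
  ext m
  rw [coeff_divMonomial, coeff_mul_monomial', coeff_mul_monomial']
  by_cases h : a ≤ m
  · rw [if_pos h, if_pos (h.trans le_add_self), coeff_divMonomial, add_tsub_assoc_of_le h]
  · rw [if_neg h, if_neg]
    intro h2
    apply h
    intro j
    by_cases hj : j = i
    · subst hj
      rw [ha]
      exact Nat.zero_le _
    · have h3 := h2 j
      rw [Finsupp.add_apply, Finsupp.single_apply, if_neg (Ne.symm hj), zero_add] at h3
      exact h3

theorem s6_mem (h0 : S_S0) (p r : ℕ) (k : Type) [Field k] (i : Fin r) (f : P r k)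
    (hf : f ∈ S p r k) : f.divMonomial (Finsupp.single i.succ.succ 1) ∈ S p r k := by
  rw [h0] at hf ⊢
  intro m hm
  rw [mem_support_iff, coeff_divMonomial] at hm
  have h1 := hf _ (mem_support_iff.2 hm)
  have n0 : i.succ.succ ≠ (0 : Fin (r + 2)) := Fin.succ_ne_zero _
  have n1 : i.succ.succ ≠ (1 : Fin (r + 2)) := by
    intro h
    have := congrArg Fin.val h
    simp at this
  rw [Finsupp.add_apply, Finsupp.add_apply, Finsupp.single_apply, Finsupp.single_apply,
    if_neg n0, if_neg n1, zero_add, zero_add] at h1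
  exact h1

theorem s6_uv (r : ℕ) (k : Type) [Field k] (a b : ℕ) (c : k) :
    (C c * (X 1 ^ a * X 0 ^ b) : P r k) =
      monomial (Finsupp.single 1 a + Finsupp.single 0 b) c := by
  rw [X_pow_eq_monomial, X_pow_eq_monomial, monomial_mul, C_mul_monomial]
  simp

theorem s6_uv_div (r : ℕ) (k : Type) [Field k] (a b : ℕ) (c : k) (i : Fin r) (f : P r k) :
    (f * (C c * (X 1 ^ a * X 0 ^ b))).divMonomial (Finsupp.single i.succ.succ 1) =
      f.divMonomial (Finsupp.single i.succ.succ 1) * (C c * (X 1 ^ a * X 0 ^ b)) := by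
  rw [s6_uv]
  apply s6_div_mul
  have n0 : (0 : Fin (r + 2)) ≠ i.succ.succ := (Fin.succ_ne_zero _).symm
  have n1 : (1 : Fin (r + 2)) ≠ i.succ.succ := by
    intro h
    have := congrArg Fin.val h
    simp at this
  rw [Finsupp.add_apply, Finsupp.single_apply, Finsupp.single_apply, if_neg n0, if_neg n1,
    add_zero]

theorem FI_S6 (h0 : S_S0) : S_S6 := by
  classical
  intro p r k _ s t hp i w hw
  have hp2 : p + 1 ≤ p ^ 2 := by nlinarith [hp.two_le]
  obtain ⟨F0, hF0⟩ : ∃ F : S p r k, F = ⟨C 1 * (X 1 ^ (p ^ 2 - 1) * X 0 ^ 0),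
      pow_mul_mem p r k (p ^ 2 - 1) 0 1 (by simp)⟩ := ⟨_, rfl⟩
  obtain ⟨F1, hF1⟩ : ∃ F : S p r k, F = ⟨C s * (X 1 ^ p * X 0 ^ (p ^ 2 - 1 - p)),
      pow_mul_mem p r k p (p ^ 2 - 1 - p) s (by rw [Nat.sub_add_cancel (by omega)])⟩ +
      ⟨C t * (X 1 ^ 0 * X 0 ^ (p ^ 2 - 1)),
      pow_mul_mem p r k 0 (p ^ 2 - 1) t (by simp)⟩ := ⟨_, rfl⟩
  have ex0 : x0 p r k = algebraMap (S p r k) (T p r k) F0 := by
    rw [hF0]
    unfold x0 uv
    rw [dif_pos (by simp)]
  have ex1 : x1 p r k s t = algebraMap (S p r k) (T p r k) F1 := by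
    rw [hF1, map_add]
    unfold x1 uv
    rw [dif_pos (by rw [Nat.sub_add_cancel (by omega)]), dif_pos (by simp)]
  obtain ⟨Z, hZ⟩ : ∃ Z : Fin r → S p r k, Z = fun j => ⟨X j.succ.succ, z_mem p r k j⟩ := ⟨_, rfl⟩
  have ez : zz p r k = fun j => algebraMap (S p r k) (T p r k) (Z j) := by
    rw [hZ]
    rfl
  obtain ⟨I, hI⟩ : ∃ I : Ideal (S p r k), I = Ideal.span ({F0, F1} ∪ Z '' {j | j ≠ i}) :=
    ⟨_, rfl⟩
  have eI : Ideal.span ({x0 p r k, x1 p r k s t} ∪ zz p r k '' {j | j ≠ i}) =
      I.map (algebraMap (S p r k) (T p r k)) := by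
    rw [hI, Ideal.map_span, Set.image_union, Set.image_pair, Set.image_image, ex0, ex1, ez]
  rw [eI] at hw ⊢
  -- division by `z i`
  obtain ⟨δ, hδ⟩ : ∃ δ : S p r k → S p r k, δ = fun f =>
    ⟨f.1.divMonomial (Finsupp.single i.succ.succ 1), s6_mem h0 p r k i f.1 f.2⟩ := ⟨_, rfl⟩
  have hδv : ∀ f : S p r k, (δ f).1 = f.1.divMonomial (Finsupp.single i.succ.succ 1) := by
    intro f
    rw [hδ]
  have dz : ∀ f : S p r k, δ (f * Z i) = f := by
    intro f
    apply Subtype.ext
    rw [hδv, hZ]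
    exact mul_X_divMonomial f.1 i.succ.succ
  have d0 : δ 0 = 0 := by
    apply Subtype.ext
    rw [hδv]
    exact zero_divMonomial _
  have dadd : ∀ f g : S p r k, δ (f + g) = δ f + δ g := by
    intro f g
    apply Subtype.ext
    rw [hδv]
    show (f.1 + g.1).divMonomial _ = (δ f).1 + (δ g).1
    rw [add_divMonomial, hδv, hδv]
  have g0 : ∀ f : S p r k, δ (f * F0) = δ f * F0 := by
    intro f
    apply Subtype.ext
    rw [hδv]
    show (f.1 * F0.1).divMonomial _ = (δ f).1 * F0.1
    rw [hδv, hF0]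
    exact s6_uv_div r k _ _ _ i f.1
  have g1 : ∀ f : S p r k, δ (f * F1) = δ f * F1 := by
    intro f
    apply Subtype.ext
    rw [hδv]
    show (f.1 * F1.1).divMonomial _ = (δ f).1 * F1.1
    rw [hδv, hF1]
    show (f.1 * (C s * (X 1 ^ p * X 0 ^ (p ^ 2 - 1 - p)) +
      C t * (X 1 ^ 0 * X 0 ^ (p ^ 2 - 1)))).divMonomial _ = _ *
      (C s * (X 1 ^ p * X 0 ^ (p ^ 2 - 1 - p)) + C t * (X 1 ^ 0 * X 0 ^ (p ^ 2 - 1)))
    rw [mul_add, add_divMonomial, s6_uv_div, s6_uv_div, mul_add]
  have g2 : ∀ (j : Fin r), j ≠ i → ∀ f : S p r k, δ (f * Z j) = δ f * Z j := by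
    intro j hj f
    apply Subtype.ext
    rw [hδv]
    show (f.1 * (Z j).1).divMonomial _ = (δ f).1 * (Z j).1
    rw [hδv, hZ]
    show (f.1 * monomial (Finsupp.single j.succ.succ 1) 1).divMonomial _ =
      _ * monomial (Finsupp.single j.succ.succ 1) 1
    apply s6_div_mul
    rw [Finsupp.single_apply, if_neg]
    intro h
    exact hj (Fin.succ_injective _ (Fin.succ_injective _ h))
  have key : ∀ a ∈ I, ∀ c : S p r k, δ (c * a) ∈ I := by
    intro a ha
    rw [hI] at ha
    refine Submodule.span_induction (p := fun a _ => ∀ c : S p r k, δ (c * a) ∈ I)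
      ?_ ?_ ?_ ?_ ha
    · intro g hg c
      have hgI : g ∈ I := by
        rw [hI]
        exact Ideal.subset_span hg
      have hd : δ (c * g) = δ c * g := by
        rcases hg with hg | ⟨j, hj, rfl⟩
        · rcases hg with hg | hg
          · rw [hg]
            exact g0 c
          · rw [Set.mem_singleton_iff.1 hg]
            exact g1 c
        · exact g2 j hj c
      rw [hd]
      exact I.mul_mem_left _ hgI
    · intro c
      rw [mul_zero, d0]
      exact I.zero_mem
    · intro x y _ _ hx hy c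
      rw [mul_add, dadd]
      exact I.add_mem (hx c) (hy c)
    · intro d x _ hx c
      have : c * (d • x) = (c * d) * x := by
        rw [smul_eq_mul, mul_assoc]
      rw [this]
      exact hx _
  have key2 : ∀ f : S p r k, f * Z i ∈ I → f ∈ I := by
    intro f hf
    have h1 := key _ hf 1
    rwa [one_mul, dz] at h1
  -- localisation
  obtain ⟨⟨f, g⟩, hfg⟩ := IsLocalization.surj (orig p r k).primeCompl w
  simp only at hfg
  have h1 : algebraMap (S p r k) (T p r k) (f * Z i) ∈ I.map (algebraMap (S p r k) (T p r k)) := by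
    have e1 : algebraMap (S p r k) (T p r k) (f * Z i) =
        (w * zz p r k i) * algebraMap (S p r k) (T p r k) g := by
      rw [map_mul, ← hfg, ez]
      ring
    rw [e1]
    exact Ideal.mul_mem_right _ _ hw
  rw [IsLocalization.mem_map_algebraMap_iff (orig p r k).primeCompl] at h1
  obtain ⟨⟨a, u⟩, h2⟩ := h1
  simp only at h2
  rw [← map_mul] at h2
  obtain ⟨v, h3⟩ := (IsLocalization.eq_iff_exists (orig p r k).primeCompl (T p r k)).1 h2
  have h4 : (f * (u * v : S p r k)) * Z i ∈ I := by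
    have e1 : (f * ((u : S p r k) * v)) * Z i = v * (f * Z i * u) := by ring
    rw [e1, h3]
    exact I.mul_mem_left _ a.2
  have h5 := key2 _ h4
  have h6 := Ideal.mem_map_of_mem (algebraMap (S p r k) (T p r k)) h5
  rw [map_mul, ← hfg, map_mul] at h6
  have ug : IsUnit (algebraMap (S p r k) (T p r k) g) := IsLocalization.map_units _ g
  have uu : IsUnit (algebraMap (S p r k) (T p r k) u) := IsLocalization.map_units _ u
  have uv' : IsUnit (algebraMap (S p r k) (T p r k) v) := IsLocalization.map_units _ v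
  rw [mul_assoc] at h6
  exact (Ideal.mul_unit_mem_iff_mem _ (ug.mul (uu.mul uv'))).1 h6

end Pool.Agent.Y758.FI
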