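import Pool.Agent.Y758.FI.Stm

set_option autoImplicit false

open IsLocalRing MvPolynomial

namespace Pool.Agent.Y758.FI

open H503R3.FI (FInjective IsParameterIdeal FrobeniusClosed FSplit RR Cochain)

/-- The conclusion for one characteristic and one dimension. -/
def Concl (p d : ℕ) : Prop :=
  ∃ (k : Type) (_ : Field k) (R : Type) (_ : CommRing R) (_ : Algebra k R) (_ : IsLocalRing R),
      CharP R p ∧ IsNoetherianRing R ∧ Algebra.EssFiniteType k R ∧
      ringKrullDim R = (d : WithBot ℕ∞) ∧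
      (∀ Q ∈ minimalPrimes R, ringKrullDim (R ⧸ Q) = ringKrullDim R) ∧
      FInjective p R ∧ ∃ q : Ideal R, IsParameterIdeal R q ∧ ¬ FrobeniusClosed p q

theorem concl_of (p d : ℕ) (k R : Type) [Field k] [CommRing R] [Algebra k R] [IsLocalRing R]
    (h1 : CharP R p) (h2 : IsNoetherianRing R) (h3 : Algebra.EssFiniteType k R)
    (h4 : ringKrullDim R = (d : WithBot ℕ∞))
    (h5 : ∀ Q ∈ minimalPrimes R, ringKrullDim (R ⧸ Q) = (d : WithBot ℕ∞))
    (h6 : FInjective p R) (x : Fin d → R)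
    (hx : (Ideal.span (Set.range x)).radical = maximalIdeal R) (z : R)
    (hz1 : z ∉ Ideal.span (Set.range x))
    (hz2 : z ^ p ∈ Ideal.span (Set.range fun i => x i ^ p)) : Concl p d := by
  refine ⟨k, inferInstance, R, inferInstance, inferInstance, inferInstance, h1, h2, h3, h4, ?_,
    h6, Ideal.span (Set.range x), ?_, ?_⟩
  · intro Q hQ
    rw [h5 Q hQ, h4]
  · exact ⟨d, x, h4.symm, rfl, hx⟩
  · intro hcl
    apply hz1
    apply hcl z
    refine ⟨1, ?_⟩
    rw [pow_one]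
    refine Ideal.span_mono ?_ hz2
    rintro _ ⟨i, rfl⟩
    exact ⟨x i, Ideal.subset_span ⟨i, rfl⟩, rfl⟩

theorem glueAbs (hE : S_E) (hF1 : S_F1) (hF2 : S_F2) (hF4 : S_F4) (hG : S_G)
    (p r : ℕ) (k T R0 : Type) [Field k] [CommRing T] [IsLocalRing T] [IsNoetherianRing T]
    [IsDomain T] [Algebra k T] [Algebra.EssFiniteType k T] [CommRing R0] (π : T →+* R0)
    (x0 x1 x2 : T) (z : Fin r → T) (s t : T) (hr : 0 < r) (hAmb : Amb p r T x0 x1 z)
    (hπ : Map p r T R0 π x0 x1 x2 z s t) : Concl p (r + 2) := by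
  obtain ⟨hc, hloc, hmax⟩ := hF1 p r T R0 π _ _ _ _ _ _ hAmb hπ
  obtain ⟨hn, hk, he⟩ := hF2 k T R0 π
  obtain ⟨hd1, hd2⟩ := hF4 T R0 π _ hAmb.dim
  obtain ⟨x, hx1, w, hz1, hz2⟩ := hG p r T R0 π _ _ _ _ _ _ hr hAmb hπ hloc hmax
  exact @concl_of p (r + 2) k (RR π) _ _ hk hloc hc hn he hd1 hd2
    (hE p r T R0 π _ _ _ _ _ _ hAmb hπ hloc hmax) x hx1 w hz1 hz2

theorem isDomain_T (p r : ℕ) (k : Type) [Field k] : IsDomain (T p r k) :=
  IsLocalization.isDomain_localization (orig p r k).primeCompl_le_nonZeroDivisors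

theorem charP_T (p r : ℕ) (k : Type) [Field k] [CharP k p] : CharP (T p r k) p := by
  have hcS : CharP (S p r k) p := charP_of_injective_algebraMap
    (FaithfulSMul.algebraMap_injective k (S p r k)) p
  exact charP_of_injective_algebraMap
    (IsLocalization.injective (T p r k) (orig p r k).primeCompl_le_nonZeroDivisors) p

theorem noeth_T (p r : ℕ) (k : Type) [Field k] (h : IsNoetherianRing (S p r k)) :
    IsNoetherianRing (T p r k) :=
  IsLocalization.isNoetherianRing (orig p r k).primeCompl (T p r k) h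

theorem ess_T (p r : ℕ) (k : Type) [Field k] (h : Algebra.FiniteType k (S p r k)) :
    Algebra.EssFiniteType k (T p r k) := by
  have hess1 : Algebra.EssFiniteType (S p r k) (T p r k) :=
    Algebra.EssFiniteType.of_isLocalization (T p r k) (orig p r k).primeCompl
  exact Algebra.EssFiniteType.comp k (S p r k) (T p r k)

theorem amb_T (hS1 : S_S1) (hS2 : S_S2) (hS3 : S_S3) (hS4 : S_S4) (hS5 : S_S5) (hS6 : S_S6)
    (p r : ℕ) (k : Type) [Field k] [CharP k p] (s t : k) (hp : p.Prime) (hr : 0 < r)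
    (ht : t ≠ 0) : Amb p r (T p r k) (x0 p r k) (x1 p r k s t) (zz p r k) := by
  have hN : IsNoetherianRing (S p r k) := by
    have := hS1 p r k hp
    exact Algebra.FiniteType.isNoetherianRing k _
  exact ⟨hp, isDomain_T p r k, noeth_T p r k hN, charP_T p r k, hS3 p r k hp hN, hS2 p r k hp,
    hS4 p r k hp hr, hS5 p r k s t hp ht, hS6 p r k s t hp⟩

theorem glue (hE : S_E) (hF1 : S_F1) (hF2 : S_F2) (hF4 : S_F4) (hG : S_G) (hA1 : S_A1)
    (hA2 : S_A2) (hS1 : S_S1) (hS2 : S_S2) (hS3 : S_S3) (hS4 : S_S4) (hS5 : S_S5) (hS6 : S_S6)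
    (hB : S_B) : ∀ p : ℕ, p.Prime → ∀ d : ℕ, 3 ≤ d → Concl p d := by
  intro p hp d hd
  obtain ⟨r, rfl⟩ : ∃ r, d = r + 2 := ⟨d - 2, by omega⟩
  have hr : 0 < r := by omega
  obtain ⟨k, K, _, _, _, α, s, t, hF, ht⟩ := hA2 hA1 p hp
  have hchar : CharP k p := hF.char
  have hFT : Algebra.FiniteType k (S p r k) := hS1 p r k hp
  obtain ⟨R0, _, π, hπ⟩ := hB p r k K α s t hp hF
  have hAmb := amb_T hS1 hS2 hS3 hS4 hS5 hS6 p r k s t hp hr ht
  have := isDomain_T p r k
  have := ess_T p r k hFT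
  have := noeth_T p r k (Algebra.FiniteType.isNoetherianRing k _)
  exact glueAbs hE hF1 hF2 hF4 hG p r k (T p r k) R0 π _ _ _ _ _ _ hr hAmb hπ

end Pool.Agent.Y758.FI
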