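import Pool.Agent.H503R3.FI.Stmts

/-! Project FI (helper758), MP_05c1ee_al in every characteristic `p` and every dimension `≥ 3`:
definitions and exact statements of all parts. -/

set_option autoImplicit false

open IsLocalRing MvPolynomial

namespace Pool.Agent.Y758.FI

open H503R3.FI (FInjective IsParameterIdeal FrobeniusClosed FSplit RR Cochain)

/-- Field data: `K = k(α)` of degree `p ^ 2`, `α ^ (p ^ 2) = s α ^ p + t`, without purely
inseparable elements over `k`. -/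
structure FieldData (p : ℕ) (k K : Type) [Field k] [Field K] [Algebra k K] (α : K) (s t : k) :
    Prop where
  char : CharP k p
  rel : α ^ (p ^ 2) = algebraMap k K s * α ^ p + algebraMap k K t
  indep : LinearIndependent k (fun i : Fin (p ^ 2) => α ^ (i : ℕ))
  span : ∀ z : K, ∃ c : Fin (p ^ 2) → k, z = ∑ i, algebraMap k K (c i) * α ^ (i : ℕ)
  closed : ∀ z : K, (∃ c : k, z ^ p = algebraMap k K c) → ∃ c : k, z = algebraMap k K c

/-- The polynomial ring in the variables `X 0 = v`, `X 1 = u` and `z i = X (i + 2)`, `i < r`. -/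
abbrev P (r : ℕ) (k : Type) [Field k] : Type := MvPolynomial (Fin (r + 2)) k

/-- The Veronese type subring spanned by the monomials whose degree in `u, v` is divisible by
`p ^ 2 - 1`. -/
noncomputable def S (p r : ℕ) (k : Type) [Field k] : Subalgebra k (P r k) :=
  Algebra.adjoin k {f | ∃ m : Fin (r + 2) →₀ ℕ, (p ^ 2 - 1) ∣ m 0 + m 1 ∧ f = monomial m 1}

/-- The ideal of the origin in `S`. -/
noncomputable abbrev orig (p r : ℕ) (k : Type) [Field k] : Ideal (S p r k) :=
  RingHom.ker ((MvPolynomial.constantCoeff : P r k →+* k).comp (S p r k).val.toRingHom)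

instance orig_isPrime (p r : ℕ) (k : Type) [Field k] : (orig p r k).IsPrime :=
  RingHom.ker_isPrime _

/-- The local ring of `Spec S` at the origin, of dimension `r + 2`. -/
abbrev T (p r : ℕ) (k : Type) [Field k] : Type := Localization.AtPrime (orig p r k)

theorem monomial_mem (p r : ℕ) (k : Type) [Field k] (m : Fin (r + 2) →₀ ℕ) (c : k)
    (h : (p ^ 2 - 1) ∣ m 0 + m 1) : monomial m c ∈ S p r k := by
  have h1 : (monomial m c : P r k) = c • monomial m 1 := by
    rw [smul_monomial, smul_eq_mul, mul_one]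
  have h2 : (monomial m 1 : P r k) ∈ {f : P r k | ∃ m : Fin (r + 2) →₀ ℕ,
      (p ^ 2 - 1) ∣ m 0 + m 1 ∧ f = monomial m 1} := ⟨m, h, rfl⟩
  rw [h1]
  exact Subalgebra.smul_mem _ (Algebra.subset_adjoin h2) c

theorem pow_mul_mem (p r : ℕ) (k : Type) [Field k] (a b : ℕ) (c : k)
    (h : (p ^ 2 - 1) ∣ b + a) : (C c * (X 1 ^ a * X 0 ^ b) : P r k) ∈ S p r k := by
  have h1 : (C c * (X 1 ^ a * X 0 ^ b) : P r k) =
      monomial (Finsupp.single 1 a + Finsupp.single 0 b) c := by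
    rw [X_pow_eq_monomial, X_pow_eq_monomial, monomial_mul, C_mul_monomial]
    simp
  rw [h1]
  apply monomial_mem
  have h01 : (0 : Fin (r + 2)) ≠ 1 := by
    intro h0
    have := congrArg Fin.val h0
    simp at this
  simp only [Finsupp.add_apply, Finsupp.single_apply, if_neg h01, if_neg h01.symm,
    zero_add, add_zero]
  simpa using h

theorem z_mem (p r : ℕ) (k : Type) [Field k] (i : Fin r) :
    (X i.succ.succ : P r k) ∈ S p r k := by
  have h1 : (X i.succ.succ : P r k) = monomial (Finsupp.single i.succ.succ 1) 1 := rfl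
  rw [h1]
  apply monomial_mem
  have h0 : (0 : Fin (r + 2)) ≠ i.succ.succ := (Fin.succ_ne_zero _).symm
  have h2 : (1 : Fin (r + 2)) ≠ i.succ.succ := by
    intro h
    have := congrArg Fin.val h
    simp at this
  simp [h0.symm, h2.symm]

/-- The variables `z i` in `T`. -/
noncomputable def zz (p r : ℕ) (k : Type) [Field k] (i : Fin r) : T p r k :=
  algebraMap (S p r k) (T p r k) ⟨X i.succ.succ, z_mem p r k i⟩

/-- The element `c u ^ a v ^ b` of `T` if `a + b` is divisible by `p ^ 2 - 1` (and `0` if not). -/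
noncomputable def uv (p r : ℕ) (k : Type) [Field k] (c : k) (a b : ℕ) : T p r k :=
  open Classical in
  if h : (p ^ 2 - 1) ∣ b + a then
    algebraMap (S p r k) (T p r k) ⟨C c * (X 1 ^ a * X 0 ^ b), pow_mul_mem p r k a b c h⟩
  else 0

/-- Constants in `T`. -/
noncomputable def cst (p r : ℕ) (k : Type) [Field k] (c : k) : T p r k :=
  algebraMap (S p r k) (T p r k) (algebraMap k (S p r k) c)

/-- `x0 = u ^ (p ^ 2 - 1)`. -/
noncomputable def x0 (p r : ℕ) (k : Type) [Field k] : T p r k := uv p r k 1 (p ^ 2 - 1) 0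

/-- `x1 = s u ^ p v ^ (p ^ 2 - 1 - p) + t v ^ (p ^ 2 - 1)`. -/
noncomputable def x1 (p r : ℕ) (k : Type) [Field k] (s t : k) : T p r k :=
  uv p r k s p (p ^ 2 - 1 - p) + uv p r k t 0 (p ^ 2 - 1)

/-- `x2 = s u ^ (2 p - 1) v ^ (p ^ 2 - 2 p) + t u ^ (p - 1) v ^ (p ^ 2 - p)`. -/
noncomputable def x2 (p r : ℕ) (k : Type) [Field k] (s t : k) : T p r k :=
  uv p r k s (2 * p - 1) (p ^ 2 - 2 * p) + uv p r k t (p - 1) (p ^ 2 - p)

/-- The properties of the ambient local ring `T` which are used. -/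
structure Amb (p r : ℕ) (T : Type) [CommRing T] [IsLocalRing T] (x0 x1 : T) (z : Fin r → T) :
    Prop where
  prime : p.Prime
  dom : IsDomain T
  noeth : IsNoetherianRing T
  char : CharP T p
  dim : ringKrullDim T = ((r + 2 : ℕ) : WithBot ℕ∞)
  split : ∃ φ : T → T, FSplit p T φ
  depth : ∀ (n : ℕ) (x : Fin n → T), (Ideal.span (Set.range x)).radical = maximalIdeal T →
    ∀ c : Cochain x 1, H503R3.FI.d x 1 c = 0 → ∃ b : Cochain x 0, H503R3.FI.d x 0 b = c
  rad : (Ideal.span ({x0, x1} ∪ Set.range z)).radical = maximalIdeal T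
  reg : ∀ (i : Fin r) (w : T), w * z i ∈ Ideal.span ({x0, x1} ∪ z '' {j | j ≠ i}) →
    w ∈ Ideal.span ({x0, x1} ∪ z '' {j | j ≠ i})

/-- The properties of the map `π : T → R0` onto a one-dimensional local domain. -/
structure Map (p r : ℕ) (T R0 : Type) [CommRing T] [CommRing R0] (π : T →+* R0) (x0 x1 x2 : T)
    (z : Fin r → T) (s t : T) : Prop where
  dom : IsDomain R0
  surj : Function.Surjective π
  dim1 : ∀ a : R0, a ≠ 0 → ∀ f : R0, ¬ IsUnit f → ∃ N : ℕ, a ∣ f ^ N
  root : ∀ a b c : R0, b ≠ 0 → a ^ p = c * b ^ p → b ∣ a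
  rel : π (x2 ^ p) = π (s * x1 ^ p + t * x0 ^ p)
  notMem : π x2 ∉ Ideal.span {π x0, π x1}
  ne : π x0 ≠ 0
  kz : ∀ i, π (z i) = 0

/-! ### Abstract parts -/

def S_E : Prop :=
  ∀ (p r : ℕ) (T R0 : Type) [CommRing T] [IsLocalRing T] [CommRing R0] (π : T →+* R0)
    (x0 x1 x2 : T) (z : Fin r → T) (s t : T), Amb p r T x0 x1 z →
      Map p r T R0 π x0 x1 x2 z s t → ∀ (_ : IsLocalRing (RR π)),
      (∀ a : RR π, a ∈ maximalIdeal (RR π) ↔ a.1.1 ∈ maximalIdeal T) →
      FInjective p (RR π)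

def S_F1 : Prop :=
  ∀ (p r : ℕ) (T R0 : Type) [CommRing T] [IsLocalRing T] [CommRing R0] (π : T →+* R0)
    (x0 x1 x2 : T) (z : Fin r → T) (s t : T), Amb p r T x0 x1 z →
      Map p r T R0 π x0 x1 x2 z s t → CharP (RR π) p ∧
      ∃ _ : IsLocalRing (RR π), ∀ a : RR π, a ∈ maximalIdeal (RR π) ↔ a.1.1 ∈ maximalIdeal T

def S_F2 : Prop :=
  ∀ (k T R0 : Type) [Field k] [CommRing T] [IsNoetherianRing T] [Algebra k T]
    [Algebra.EssFiniteType k T] [CommRing R0] (π : T →+* R0),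
      IsNoetherianRing (RR π) ∧ ∃ _ : Algebra k (RR π), Algebra.EssFiniteType k (RR π)

def S_F4 : Prop :=
  ∀ (T R0 : Type) [CommRing T] [IsDomain T] [CommRing R0] (π : T →+* R0) (n : WithBot ℕ∞),
    ringKrullDim T = n → ringKrullDim (RR π) = n ∧
      ∀ Q ∈ minimalPrimes (RR π), ringKrullDim (RR π ⧸ Q) = n

def S_G : Prop :=
  ∀ (p r : ℕ) (T R0 : Type) [CommRing T] [IsLocalRing T] [CommRing R0] (π : T →+* R0)
    (x0 x1 x2 : T) (z : Fin r → T) (s t : T), 0 < r → Amb p r T x0 x1 z →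
      Map p r T R0 π x0 x1 x2 z s t → ∀ (_ : IsLocalRing (RR π)),
      (∀ a : RR π, a ∈ maximalIdeal (RR π) ↔ a.1.1 ∈ maximalIdeal T) →
      ∃ x : Fin (r + 2) → RR π, (Ideal.span (Set.range x)).radical = maximalIdeal (RR π) ∧
        ∃ w : RR π, w ∉ Ideal.span (Set.range x) ∧
          w ^ p ∈ Ideal.span (Set.range fun i => x i ^ p)

/-! ### The field data -/

/-- A polynomial identity: if `h (s, α ^ (p ^ 2) - s α ^ p)` is a `p`-th power of a polynomial in
`s, α`, then `h` is the `p`-th power of a polynomial (`s` is the inner variable). -/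
def S_A1 : Prop :=
  ∀ (p : ℕ) [Fact p.Prime] (h Z : Polynomial (Polynomial (ZMod p))),
    Z ^ p = h.comp (Polynomial.X ^ (p ^ 2) - Polynomial.C Polynomial.X * Polynomial.X ^ p) →
    ∃ H : Polynomial (Polynomial (ZMod p)), H ^ p = h

def S_A2 : Prop :=
  S_A1 → ∀ p : ℕ, p.Prime → ∃ (k K : Type) (_ : Field k) (_ : Field K) (_ : Algebra k K) (α : K)
    (s t : k), FieldData p k K α s t ∧ t ≠ 0

/-! ### The Veronese type ring -/

def S_S0 : Prop :=
  ∀ (p r : ℕ) (k : Type) [Field k] (f : P r k),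
    f ∈ S p r k ↔ ∀ m ∈ f.support, (p ^ 2 - 1) ∣ m 0 + m 1

def S_S1 : Prop :=
  ∀ (p r : ℕ) (k : Type) [Field k], p.Prime → Algebra.FiniteType k (S p r k)

def S_S2 : Prop :=
  ∀ (p r : ℕ) (k : Type) [Field k] [CharP k p], p.Prime →
    ∃ φ : T p r k → T p r k, FSplit p (T p r k) φ

def S_S3 : Prop :=
  ∀ (p r : ℕ) (k : Type) [Field k], p.Prime → IsNoetherianRing (S p r k) →
    ringKrullDim (T p r k) = ((r + 2 : ℕ) : WithBot ℕ∞)

def S_S4 : Prop :=
  ∀ (p r : ℕ) (k : Type) [Field k], p.Prime → 0 < r → ∀ (n : ℕ) (x : Fin n → T p r k),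
    (Ideal.span (Set.range x)).radical = maximalIdeal (T p r k) →
    ∀ c : Cochain x 1, H503R3.FI.d x 1 c = 0 → ∃ b : Cochain x 0, H503R3.FI.d x 0 b = c

def S_S5 : Prop :=
  ∀ (p r : ℕ) (k : Type) [Field k] (s t : k), p.Prime → t ≠ 0 →
    (Ideal.span ({x0 p r k, x1 p r k s t} ∪ Set.range (zz p r k))).radical =
      maximalIdeal (T p r k)

def S_S6 : Prop :=
  ∀ (p r : ℕ) (k : Type) [Field k] (s t : k), p.Prime → ∀ (i : Fin r) (w : T p r k),
    w * zz p r k i ∈ Ideal.span ({x0 p r k, x1 p r k s t} ∪ zz p r k '' {j | j ≠ i}) →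
    w ∈ Ideal.span ({x0 p r k, x1 p r k s t} ∪ zz p r k '' {j | j ≠ i})

/-! ### The map -/

def S_B : Prop :=
  ∀ (p r : ℕ) (k K : Type) [Field k] [Field K] [Algebra k K] (α : K) (s t : k), p.Prime →
    FieldData p k K α s t → ∃ (R0 : Type) (_ : CommRing R0) (π : T p r k →+* R0),
      Map p r (T p r k) R0 π (x0 p r k) (x1 p r k s t) (x2 p r k s t) (zz p r k)
        (cst p r k s) (cst p r k t)

/-! ### The main theorem -/

def S_main : Prop :=
  ∀ (p : ℕ), p.Prime → ∀ d : ℕ, 3 ≤ d →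
    ∃ (k : Type) (_ : Field k) (R : Type) (_ : CommRing R) (_ : Algebra k R) (_ : IsLocalRing R),
      CharP R p ∧ IsNoetherianRing R ∧ Algebra.EssFiniteType k R ∧
      ringKrullDim R = (d : WithBot ℕ∞) ∧
      (∀ Q ∈ minimalPrimes R, ringKrullDim (R ⧸ Q) = ringKrullDim R) ∧
      FInjective p R ∧ ∃ q : Ideal R, IsParameterIdeal R q ∧ ¬ FrobeniusClosed p q

end Pool.Agent.Y758.FI
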